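import Pool.Agent.J4H43.SL.Tensor
import Pool.Agent.Helper392_GT.Span

/-!
# The converse: the action on tensor powers detects the metabelian quotient
-/

namespace Pool.Agent.J4H43.SL

open Pool.Agent.Helper392_GT

universe u v

attribute [local instance 100] LieRing.ofAssociativeRing

set_option linter.unusedSectionVars false

section inter

variable {k : Type u} [CommRing k] {M M' : Type*} [AddCommGroup M] [Module k M]
  [AddCommGroup M'] [Module k M']

theorem int_end {A B : Module.End k M} {A' B' : Module.End k M'} (f : M →ₗ[k] M')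
    (hA : f ∘ₗ A = A' ∘ₗ f) (hB : f ∘ₗ B = B' ∘ₗ f) (u : F2 k) :
    f ∘ₗ subst k A B u = subst k A' B' u ∘ₗ f := by
  refine free_ind (fun u => f ∘ₗ subst k A B u = subst k A' B' u ∘ₗ f) ?_ ?_ ?_ ?_ ?_ ?_ u
  · rw [map_zero, map_zero, LinearMap.comp_zero, LinearMap.zero_comp]
  · intro a b ha hb
    rw [map_add, map_add, LinearMap.comp_add, LinearMap.add_comp, ha, hb]
  · intro c a ha
    rw [map_smul, map_smul, LinearMap.comp_smul, LinearMap.smul_comp, ha]
  · intro a b ha hb
    rw [LieHom.map_lie, LieHom.map_lie, Ring.lie_def, Ring.lie_def, LinearMap.comp_sub,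
      LinearMap.sub_comp, Module.End.mul_eq_comp, Module.End.mul_eq_comp, Module.End.mul_eq_comp,
      Module.End.mul_eq_comp, ← LinearMap.comp_assoc, ← LinearMap.comp_assoc, ha, hb,
      LinearMap.comp_assoc, LinearMap.comp_assoc, ha, hb, LinearMap.comp_assoc,
      LinearMap.comp_assoc]
  · rw [subst_x, subst_x]; exact hA
  · rw [subst_y, subst_y]; exact hB

end inter

section one

variable {k : Type u} [CommRing k] {N : ℕ} (c : Fin N → Fin 3)

/-- number of factors of colour `p` -/
def num (p : Fin 3) : ℕ := (Finset.univ.filter (fun i => c i = p)).card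

/-- the one-particle vectors -/
def E1 (k : Type u) [CommRing k] {N : ℕ} (c : Fin N → Fin 3) :
    (Fin 3 → k) →ₗ[k] ((Fin N → Fin 2) → k) where
  toFun v := fun w => ∑ l, v (c l) * ((w l : ℕ) : k)
  map_add' v v' := by
    funext w
    simp only [Pi.add_apply, add_mul, Finset.sum_add_distrib]
  map_smul' t v := by
    funext w
    simp only [Pi.smul_apply, smul_eq_mul, mul_assoc, Finset.mul_sum, RingHom.id_apply]

/-- the action on `k³` -/
def n3 (k : Type u) [CommRing k] (a : Fin 3 → k) (p q : Fin 3) :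
    (Fin 3 → k) →ₗ[k] (Fin 3 → k) where
  toFun v := fun r => a p * a q * v r + (if r = p then a q * (v q - v p) else 0)
    + (if r = q then a p * (v p - v q) else 0)
  map_add' v v' := by
    funext r
    simp only [Pi.add_apply]
    split_ifs <;> ring
  map_smul' t v := by
    funext r
    simp only [Pi.smul_apply, smul_eq_mul, RingHom.id_apply]
    split_ifs <;> ring

theorem flip_E1 (i j : Fin N) (v : Fin 3 → k) (w : Fin N → Fin 2) :
    flip k i j (E1 k c v) w = ∑ l, v (c (Equiv.swap i j l)) * ((w l : ℕ) : k) := by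
  change ∑ l, v (c l) * ((w (Equiv.swap i j l) : ℕ) : k) = _
  refine Finset.sum_equiv (Equiv.swap i j) (by simp) ?_
  intro l _
  have e : Equiv.swap i j (Equiv.swap i j l) = l := by
    rw [← Equiv.Perm.mul_apply, Equiv.swap_mul_self]; rfl
  rw [e]

theorem swap_val {i j : Fin N} {p q : Fin 3} (hpq : p ≠ q) (hi : c i = p) (hj : c j = q)
    (v : Fin 3 → k) (l : Fin N) :
    v (c (Equiv.swap i j l)) = v (c l) + (if l = i then v q - v p else 0)
      + (if l = j then v p - v q else 0) := by
  have hij : i ≠ j := fun e => hpq (by rw [← hi, ← hj, e])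
  rw [Equiv.swap_apply_def]
  by_cases h1 : l = i
  · have h2 : l ≠ j := fun e => hij (h1 ▸ e)
    rw [if_pos h1, if_pos h1, if_neg h2, h1, hi, hj]; ring
  · by_cases h2 : l = j
    · rw [if_neg h1, if_pos h2, if_neg h1, if_pos h2, h2, hi, hj]; ring
    · rw [if_neg h1, if_neg h2, if_neg h1, if_neg h2]; ring

theorem cas_E1 {p q : Fin 3} (hpq : p ≠ q) :
    cas k c p q ∘ₗ E1 k c = E1 k c ∘ₗ n3 k (fun r => (num c r : k)) p q := by
  refine LinearMap.ext fun v => funext fun w => ?_
  rw [LinearMap.comp_apply, LinearMap.comp_apply, cas]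
  have hs : ∀ (i j : Fin N), (if c i = p ∧ c j = q then flip k i j else 0) (E1 k c v) w
      = ∑ l, (if c i = p ∧ c j = q then (v (c l) + (if l = i then v q - v p else 0)
      + (if l = j then v p - v q else 0)) else 0) * ((w l : ℕ) : k) := by
    intro i j
    split_ifs with h
    · rw [flip_E1]
      refine Finset.sum_congr rfl fun l _ => ?_
      rw [swap_val c hpq h.1 h.2 v l]
    · simp
  have h1 : (∑ i, ∑ j, if c i = p ∧ c j = q then flip k i j else 0) (E1 k c v) w
      = ∑ i, ∑ j, (if c i = p ∧ c j = q then flip k i j else 0) (E1 k c v) w := by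
    rw [LinearMap.sum_apply, Finset.sum_apply]
    refine Finset.sum_congr rfl fun i _ => ?_
    rw [LinearMap.sum_apply, Finset.sum_apply]
  rw [h1]
  simp only [hs]
  change _ = ∑ l, (n3 k (fun r => (num c r : k)) p q v) (c l) * ((w l : ℕ) : k)
  have h2 : ∀ i : Fin N, ∑ j, ∑ l, (if c i = p ∧ c j = q then (v (c l)
      + (if l = i then v q - v p else 0) + (if l = j then v p - v q else 0)) else 0)
      * ((w l : ℕ) : k) = ∑ l, (∑ j, (if c i = p ∧ c j = q then (v (c l)
      + (if l = i then v q - v p else 0) + (if l = j then v p - v q else 0)) else 0))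
      * ((w l : ℕ) : k) := by
    intro i
    rw [Finset.sum_comm]
    refine Finset.sum_congr rfl fun l _ => ?_
    rw [Finset.sum_mul]
  simp only [h2]
  rw [Finset.sum_comm]
  refine Finset.sum_congr rfl fun l _ => ?_
  rw [← Finset.sum_mul]
  congr 1
  have h3 : ∀ i j : Fin N, (if c i = p ∧ c j = q then (v (c l)
      + (if l = i then v q - v p else 0) + (if l = j then v p - v q else 0)) else 0)
      = (if c i = p then (1 : k) else 0) * (if c j = q then (1 : k) else 0) * v (c l)
      + (if l = i then (if c i = p then (1 : k) else 0) else 0)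
        * (if c j = q then (1 : k) else 0) * (v q - v p)
      + (if c i = p then (1 : k) else 0) * (if l = j then (if c j = q then (1 : k) else 0) else 0)
        * (v p - v q) := by
    intro i j
    by_cases a1 : c i = p <;> by_cases a2 : c j = q <;> by_cases a3 : l = i <;>
      by_cases a4 : l = j <;> simp [a1, a2, a3, a4]
  have hnum : ∀ r : Fin 3, ∑ i, (if c i = r then (1 : k) else 0) = (num c r : k) := by
    intro r
    rw [num, Finset.sum_boole]
  have hsep : ∀ (f g : Fin N → k) (t : k), ∑ i, ∑ j, f i * g j * t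
      = (∑ i, f i) * (∑ j, g j) * t := by
    intro f g t
    rw [Finset.sum_mul_sum, Finset.sum_mul]
    refine Finset.sum_congr rfl fun i _ => ?_
    rw [Finset.sum_mul]
  simp only [h3, Finset.sum_add_distrib]
  rw [hsep, hsep (fun i => if l = i then (if c i = p then (1 : k) else 0) else 0), 
    hsep (fun i => if c i = p then (1 : k) else 0)
      (fun j => if l = j then (if c j = q then (1 : k) else 0) else 0), hnum, hnum]
  simp only [Finset.sum_ite_eq, Finset.mem_univ, if_true]
  change _ = (num c p : k) * (num c q : k) * v (c l) + (if c l = p then (num c q : k) * (v q - v p)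
    else 0) + (if c l = q then (num c p : k) * (v p - v q) else 0)
  split_ifs <;> ring

end one

section two

variable {k : Type u} [CommRing k]

/-- differences -/
def D3 (k : Type u) [CommRing k] : (Fin 3 → k) →ₗ[k] (Fin 2 → k) where
  toFun v := ![v 1 - v 0, v 2 - v 1]
  map_add' v v' := by
    funext r
    fin_cases r <;> simp <;> ring
  map_smul' t v := by
    funext r
    fin_cases r <;> simp <;> ring

theorem D3_surj : Function.Surjective (D3 k) := by
  intro w
  refine ⟨![0, w 0, w 0 + w 1], ?_⟩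
  funext r
  fin_cases r <;> simp [D3]

theorem D3_x (a : Fin 3 → k) :
    D3 k ∘ₗ n3 k a 0 1 = (Matrix.toLinAlgEquiv' (mX (a 0) (a 1))
      + algebraMap k (Module.End k (Fin 2 → k)) (a 0 * a 1)) ∘ₗ D3 k := by
  refine LinearMap.ext fun v => funext fun r => ?_
  fin_cases r
  · simp [D3, n3, mX]
    ring
  · simp [D3, n3, mX]
    ring

theorem D3_y (a : Fin 3 → k) :
    D3 k ∘ₗ n3 k a 1 2 = (Matrix.toLinAlgEquiv' (mY (a 1) (a 2))
      + algebraMap k (Module.End k (Fin 2 → k)) (a 1 * a 2)) ∘ₗ D3 k := by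
  refine LinearMap.ext fun v => funext fun r => ?_
  fin_cases r
  · simp [D3, n3, mY]
    ring
  · simp [D3, n3, mY]
    ring

theorem E1_inj {N : ℕ} {c : Fin N → Fin 3} (hc : Function.Surjective c) :
    Function.Injective (E1 k c) := by
  rw [← LinearMap.ker_eq_bot, LinearMap.ker_eq_bot']
  intro v hv
  funext p
  obtain ⟨i, hi⟩ := hc p
  have := congrFun hv (fun l => if l = i then 1 else 0)
  change ∑ l, v (c l) * (((if l = i then (1 : Fin 2) else 0 : Fin 2) : ℕ) : k) = 0 at this
  rw [Finset.sum_eq_single i] at this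
  · simpa [hi] using this
  · intro b _ hb
    simp [hb]
  · intro h
    exact absurd (Finset.mem_univ i) h

theorem two_of_sl {u : F2 k} (hu : u ∈ D1 k) {N : ℕ} {c : Fin N → Fin 3}
    (hc : Function.Surjective c) (h : subst k (cas k c 0 1) (cas k c 1 2) u = 0) :
    subst k (mX (num c 0 : k) (num c 1 : k)) (mY (num c 1 : k) (num c 2 : k)) u = 0 := by
  have h1 := int_end (E1 k c) (cas_E1 (k := k) c (p := 0) (q := 1) (by decide)).symm
    (cas_E1 (k := k) c (p := 1) (q := 2) (by decide)).symm u
  rw [h, LinearMap.zero_comp] at h1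
  have h2 : subst k (n3 k (fun r => (num c r : k)) 0 1) (n3 k (fun r => (num c r : k)) 1 2) u
      = (0 : Module.End k (Fin 3 → k)) := by
    refine LinearMap.ext fun v => ?_
    apply E1_inj (k := k) hc
    have := LinearMap.congr_fun h1 v
    rw [LinearMap.comp_apply] at this
    rw [this]
    simp
  have h3 := int_end (D3 k) (D3_x (k := k) (fun r => (num c r : k)))
    (D3_y (k := k) (fun r => (num c r : k))) u
  rw [h2, LinearMap.comp_zero] at h3
  have h4 : subst k (Matrix.toLinAlgEquiv' (mX (num c 0 : k) (num c 1 : k))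
      + algebraMap k (Module.End k (Fin 2 → k)) ((num c 0 : k) * (num c 1 : k)))
      (Matrix.toLinAlgEquiv' (mY (num c 1 : k) (num c 2 : k))
      + algebraMap k (Module.End k (Fin 2 → k)) ((num c 1 : k) * (num c 2 : k))) u = 0 := by
    refine LinearMap.ext fun w => ?_
    obtain ⟨v, rfl⟩ := D3_surj (k := k) w
    have := LinearMap.congr_fun h3 v
    rw [LinearMap.comp_apply] at this
    rw [← this]
    simp
  have calg : ∀ (t : k) (w : Module.End k (Fin 2 → k)),
      ⁅w, algebraMap k (Module.End k (Fin 2 → k)) t⁆ = 0 := by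
    intro t w
    rw [Ring.lie_def, ← Algebra.commutes, sub_self]
  rw [subst_shift (k := k) (calg _ _) (calg _ _) (calg _ _) (calg _ _) (calg _ _) hu] at h4
  let φ : Matrix (Fin 2) (Fin 2) k →ₐ[k] Module.End k (Fin 2 → k) :=
    (Matrix.toLinAlgEquiv' : Matrix (Fin 2) (Fin 2) k ≃ₐ[k] _).toAlgHom
  have h5 := map_subst (k := k) (φ : Matrix (Fin 2) (Fin 2) k →ₗ⁅k⁆ Module.End k (Fin 2 → k))
    (mX (num c 0 : k) (num c 1 : k)) (mY (num c 1 : k) (num c 2 : k)) u
  have h6 : (Matrix.toLinAlgEquiv' (subst k (mX (num c 0 : k) (num c 1 : k))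
      (mY (num c 1 : k) (num c 2 : k)) u) : Module.End k (Fin 2 → k)) = 0 := h5.trans h4
  exact (map_eq_zero_iff _ (AlgEquiv.injective _)).mp h6

theorem exists_col (n : Fin 3 → ℕ) : ∃ (N : ℕ) (c : Fin N → Fin 3), ∀ p, num c p = n p := by
  let e := Fintype.equivFin (Σ p : Fin 3, Fin (n p))
  refine ⟨_, fun i => (e.symm i).1, fun p => ?_⟩
  rw [num, ← Fintype.card_subtype]
  have e1 : {i // (e.symm i).1 = p} ≃ {x : Σ p : Fin 3, Fin (n p) // x.1 = p} :=
    e.symm.subtypeEquiv (fun _ => Iff.rfl)
  rw [Fintype.card_congr (e1.trans (Equiv.sigmaSubtype p)), Fintype.card_fin]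

end two

section dens

open MvPolynomial

variable {k : Type u} [Field k] [CharZero k]

theorem poly_zero {f : MvPolynomial (Fin 3) k}
    (h : ∀ a b c : ℕ, 0 < a → 0 < b → 0 < c → eval ![(a : k), (b : k), (c : k)] f = 0) : f = 0 := by
  let s : Fin 3 → Set k := fun _ => Set.range (fun n : ℕ => ((n + 1 : ℕ) : k))
  have hs : ∀ i, (s i).Infinite := fun _ => Set.infinite_range_of_injective (by
    intro a b hab
    have := Nat.cast_injective (R := k) hab
    omega)
  refine MvPolynomial.funext_set s hs ?_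
  intro x hx
  obtain ⟨a, ha⟩ := hx 0 trivial
  obtain ⟨b, hb⟩ := hx 1 trivial
  obtain ⟨c, hc⟩ := hx 2 trivial
  have hx' : x = ![((a + 1 : ℕ) : k), ((b + 1 : ℕ) : k), ((c + 1 : ℕ) : k)] := by
    funext i
    fin_cases i
    · exact ha.symm
    · exact hb.symm
    · exact hc.symm
  rw [hx', h _ _ _ (Nat.succ_pos a) (Nat.succ_pos b) (Nat.succ_pos c), map_zero]

theorem map_mat {K K' : Type u} [CommRing K] [CommRing K'] [Algebra k K] [Algebra k K']
    (φ : K →ₐ[k] K') {n : Type} [Fintype n] [DecidableEq n] (A B : Matrix n n K) (u : F2 k)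
    (i j : n) : subst k (A.map φ) (B.map φ) u i j = φ (subst k A B u i j) := by
  let Φ : Matrix n n K →ₐ[k] Matrix n n K' := φ.mapMatrix
  have := map_subst (k := k) (Φ : Matrix n n K →ₗ⁅k⁆ Matrix n n K') A B u
  exact (congrFun (congrFun this i) j).symm

theorem univ_zero {u : F2 k} (h : ∀ a b c : ℕ, 0 < a → 0 < b → 0 < c →
    subst k (mX (a : k) (b : k)) (mY (b : k) (c : k)) u = 0) :
    subst k (mX (X 0 : MvPolynomial (Fin 3) k) (X 1)) (mY (X 1) (X 2)) u = 0 := by
  refine Matrix.ext fun i j => ?_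
  refine poly_zero fun a b c ha hb hc => ?_
  have h1 := map_mat (k := k) (aeval (R := k) ![(a : k), (b : k), (c : k)])
    (mX (X 0 : MvPolynomial (Fin 3) k) (X 1)) (mY (X 1) (X 2)) u i j
  have e1 : (mX (X 0 : MvPolynomial (Fin 3) k) (X 1)).map
      (aeval (R := k) ![(a : k), (b : k), (c : k)]) = mX (a : k) (b : k) := by
    refine Matrix.ext fun i j => ?_
    fin_cases i <;> fin_cases j <;> simp [mX]
  have e2 : (mY (X 1 : MvPolynomial (Fin 3) k) (X 2)).map
      (aeval (R := k) ![(a : k), (b : k), (c : k)]) = mY (b : k) (c : k) := by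
    refine Matrix.ext fun i j => ?_
    fin_cases i <;> fin_cases j <;> simp [mY]
  rw [e1, e2, h a b c ha hb hc] at h1
  rw [← MvPolynomial.coe_aeval_eq_eval]
  exact h1.symm

theorem mem_D2_of_univ {u : F2 k} (hu : u ∈ D1 k)
    (h : subst k (mX (X 0 : MvPolynomial (Fin 3) k) (X 1)) (mY (X 1) (X 2)) u = 0) :
    u ∈ D2 k := by
  obtain ⟨f, hf⟩ := exists_gam hu
  let φ : MvPolynomial (Fin 3) k →ₐ[k] P2 k := aeval (R := k) ![px + py, -py, 0]
  have h1 : ∀ i j, subst k (mX (px + py : P2 k) (-py)) (mY (-py) 0) u i j = 0 := by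
    intro i j
    have h1 := map_mat (k := k) φ
      (mX (X 0 : MvPolynomial (Fin 3) k) (X 1)) (mY (X 1) (X 2)) u i j
    have e1 : (mX (X 0 : MvPolynomial (Fin 3) k) (X 1)).map φ = mX (px + py : P2 k) (-py) := by
      refine Matrix.ext fun i j => ?_
      fin_cases i <;> fin_cases j <;> simp [mX, φ]
    have e2 : (mY (X 1 : MvPolynomial (Fin 3) k) (X 2)).map φ = mY (-py : P2 k) 0 := by
      refine Matrix.ext fun i j => ?_
      fin_cases i <;> fin_cases j <;> simp [mY, φ]
    rw [e1, e2, h] at h1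
    rw [h1]
    exact map_zero φ
  have h2 : subst k (mX (px + py : P2 k) (-py)) (mY (-py) 0) u = 0 := Matrix.ext h1
  have hA := mkM_dia (0 : P2 k) (-px) 0 0 (px + py) 0 0 0 0
  have hB := mkM_dia (py : P2 k) 0 0 0 0 0 0 0 0
  have h3 := int_right (k := k) (A := mkM (0 : P2 k) (-px) 0 0 (px + py) 0 0 0 0)
    (B := mkM (py : P2 k) 0 0 0 0 0 0 0 0) (A' := mX (px + py : P2 k) (-py))
    (B' := mY (-py : P2 k) 0) !![0, 1; 1, 0; 0, 0; 0, 0]
    (by
      refine Matrix.ext fun i j => ?_
      fin_cases i <;> fin_cases j <;>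
        simp [Matrix.mul_apply, Fin.sum_univ_four, mkM, mX])
    (by
      refine Matrix.ext fun i j => ?_
      fin_cases i <;> fin_cases j <;>
        simp [Matrix.mul_apply, Fin.sum_univ_four, mkM, mY]) u
  rw [h2, Matrix.mul_zero] at h3
  have h4 := congrFun (congrFun h3 0) 0
  have h5 : subst k (mkM (0 : P2 k) (-px) 0 0 (px + py) 0 0 0 0)
      (mkM (py : P2 k) 0 0 0 0 0 0 0 0) u 0 1 = 0 := by
    simpa [Matrix.mul_apply, Fin.sum_univ_four] using h4
  have h6 := (gm_entries (k := k) hA hB f).1
  have h7 := (zo_D2 (k := k) hA hB hf).1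
  rw [map_sub, Matrix.sub_apply, h5, h6, mkM_lie] at h7
  simp only [mkM_00, mkM_01, mkM_11] at h7
  have h8 : ev2 (k := k) (px : P2 k) py f * (py * (px + py)) = 0 := by
    have e1 : (0 : P2 k) - -px = px := by ring
    have e2 : (py : P2 k) - 0 = py := by ring
    rw [e1, e2] at h7
    linear_combination h7
  rw [ev2_id] at h8
  have hne : (py * (px + py) : P2 k) ≠ 0 := by
    refine mul_ne_zero (py_ne (k := k)) ?_
    intro e
    have := congrArg (ev2 (1 : k) 0 : P2 k →ₐ[k] k) e
    simp at this
  have h9 := (mul_eq_zero.mp h8).resolve_right hne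
  rw [h9, map_zero, sub_zero] at hf
  exact hf

/-- the action on the tensor powers of the plane detects `L'` modulo `L''` -/
theorem mem_D2_of_slMap {u : F2 k} (hu : u ∈ D1 k) (h : slMap k u = 0) : u ∈ D2 k := by
  refine mem_D2_of_univ hu (univ_zero fun a b c ha hb hc => ?_)
  obtain ⟨N, col, hcol⟩ := exists_col ![a, b, c]
  have hsurj : Function.Surjective col := by
    intro p
    have hp : 0 < num col p := by
      rw [hcol]
      fin_cases p
      · exact ha
      · exact hb
      · exact hc
    obtain ⟨i, hi⟩ := Finset.card_pos.mp hp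
    exact ⟨i, (Finset.mem_filter.mp hi).2⟩
  have h1 : subst k (cas k col 0 1) (cas k col 1 2) u = 0 := congrFun (congrFun h N) col
  have h2 := two_of_sl hu hsurj h1
  rw [hcol, hcol, hcol] at h2
  exact h2

end dens

end Pool.Agent.J4H43.SL
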