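import Pool.Agent.Helper392_GT.Defs5

/-!
# The action of the free Lie algebra on two generators on the tensor powers of the plane
-/

namespace Pool.Agent.J4H43.SL

open Pool.Agent.Helper392_GT

universe u

attribute [local instance 100] LieRing.ofAssociativeRing

section defs

/-- The flip of the `i`-th and the `j`-th factor of the `N`-th tensor power of the plane `k²`,
written as the space of the functions on `{0, 1}^N`. -/
noncomputable def flip (k : Type u) [CommRing k] {N : ℕ} (i j : Fin N) :
    Module.End k ((Fin N → Fin 2) → k) :=
  LinearMap.funLeft k k (fun w => w ∘ Equiv.swap i j)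

/-- The sum of the flips of the factors `i` and `j` over all `i` of colour `p` and `j` of
colour `q`. -/
noncomputable def cas (k : Type u) [CommRing k] {N : ℕ} (c : Fin N → Fin 3) (p q : Fin 3) :
    Module.End k ((Fin N → Fin 2) → k) :=
  ∑ i, ∑ j, if c i = p ∧ c j = q then flip k i j else 0

/-- The product of the endomorphism rings of the tensor powers of the plane, indexed by the number
`N` of factors and their colourings by the three colours `0, 1, 2`. -/
def SlEnd (k : Type u) [CommRing k] : Type u :=
  (N : ℕ) → (Fin N → Fin 3) → Module.End k ((Fin N → Fin 2) → k)

noncomputable instance (k : Type u) [CommRing k] : AddCommGroup (SlEnd k) :=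
  inferInstanceAs (AddCommGroup ((N : ℕ) → (Fin N → Fin 3) → Module.End k ((Fin N → Fin 2) → k)))

noncomputable instance (k : Type u) [CommRing k] : Module k (SlEnd k) :=
  inferInstanceAs (Module k ((N : ℕ) → (Fin N → Fin 3) → Module.End k ((Fin N → Fin 2) → k)))

/-- The collection of the operators `ψ(T₀₁, T₁₂)` on `(k²)^{⊗ N}`, where `T_{pq}` is the sum of
the flips between the factors of colour `p` and those of colour `q`, for all `N` and all
colourings of the factors by the three colours `0, 1, 2`. -/
noncomputable def slMap (k : Type u) [CommRing k] : F2 k →ₗ[k] SlEnd k where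
  toFun ψ := fun _ c => subst k (cas k c 0 1) (cas k c 1 2) ψ
  map_add' a b := by
    funext N c
    exact map_add _ a b
  map_smul' t a := by
    funext N c
    exact map_smul _ t a

/-- The image of `V` under `slMap`. -/
noncomputable def slImage {k : Type u} [CommRing k] (V : Submodule k (F2 k)) :
    Submodule k (SlEnd k) := V.map (slMap k)

/-- The dimension of the image of `V` under `slMap`. -/
noncomputable def slDim {k : Type u} [CommRing k] (V : Submodule k (F2 k)) : ℕ :=
  Module.finrank k (slImage V)

end defs

end Pool.Agent.J4H43.SL
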