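import Pool.Agent.J4H43.SL.Conv
import Pool.Agent.Helper392_GT.Density2

/-!
# The images of the motivic and of the Grothendieck-Teichmüller Lie algebra
-/

namespace Pool.Agent.J4H43.SL

open Pool.Agent.Helper392_GT

universe u v

attribute [local instance 100] LieRing.ofAssociativeRing

set_option linter.unusedSectionVars false

section image

open Polynomial

variable {k : Type u} [Field k] [CharZero k]

/-- kernel of `slMap` on the solutions of the pentagon equation -/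
theorem slMap_eq_zero_iff {ψ : F2 k} (hp : Pentagon k ψ) : slMap k ψ = 0 ↔ DepthGE k 2 ψ :=
  ⟨fun h => depth_D2 (mem_D2_of_slMap (pentagon_mem_D1 hp) h),
    fun h => slMap_zero hp (mem_D2_of_depth hp h)⟩

/-- the Soulé elements span `𝔤𝔯𝔱₁` modulo `L''` -/
theorem span_mod (𝔤 : Submodule k (F2 k)) (hgrt : 𝔤 ≤ grtSub k) (hσ : HasSoule 𝔤) {ψ : F2 k}
    (hψ : ψ ∈ grtSub k) : ∃ γ ∈ 𝔤, ψ - γ ∈ D2 k := by
  have hg : IsGRT k ψ := hψ
  have hψ1 := pentagon_mem_D1 hg.pent
  obtain ⟨f, hf⟩ := exists_gam hψ1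
  have hev := c0_even hg hψ1 hf
  have hsel : ∀ i : ℕ, ∃ σ ∈ 𝔤, ∃ fσ : P2 k, σ - gm k fσ ∈ D2 k ∧
      c0 fσ = if Odd i then X ^ i else 0 := by
    intro i
    by_cases hi : Odd i
    · obtain ⟨σ, s1, s2, s3⟩ := hσ (i + 2) (by
        rw [Nat.odd_iff] at hi ⊢; omega) (by
        have := hi.pos; omega)
      obtain ⟨fσ, hfσ⟩ := exists_gam (pentagon_mem_D1 (hgrt s1 : IsGRT k σ).pent)
      refine ⟨σ, s1, fσ, hfσ, ?_⟩
      rw [if_pos hi]
      have s3' : DepthGE k 2 (σ - vm k (i + 2 - 1)) := s3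
      have := sigma_c0 (n := i + 2) (by have := hi.pos; omega) s3' hfσ
      rw [this]; rfl
    · exact ⟨0, 𝔤.zero_mem, 0, by simp, by rw [if_neg hi]; simp [c0]⟩
  choose σ s1 fσ s2 s3 using hsel
  let γ : F2 k := ∑ i ∈ (c0 f).support, (c0 f).coeff i • σ i
  let g : P2 k := ∑ i ∈ (c0 f).support, (c0 f).coeff i • fσ i
  have hγ : γ ∈ 𝔤 := Submodule.sum_mem _ fun i _ => 𝔤.smul_mem _ (s1 i)
  refine ⟨γ, hγ, ?_⟩
  have hsub : ψ - γ ∈ grtSub k := (grtSub k).sub_mem hψ (hgrt hγ)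
  have hd : (ψ - γ) - gm k (f - g) ∈ D2 k := by
    have e : (ψ - γ) - gm k (f - g) = (ψ - gm k f) - (γ - gm k g) := by
      rw [map_sub]; abel
    have e2 : γ - gm k g = ∑ i ∈ (c0 f).support, (c0 f).coeff i • (σ i - gm k (fσ i)) := by
      simp only [γ, g, map_sum, map_smul, smul_sub, Finset.sum_sub_distrib]
    rw [e, e2]
    exact (D2 k).sub_mem hf ((D2 k).toSubmodule.sum_mem fun i _ => (D2 k).smul_mem _ (s2 i))
  refine D2_of_c0 (show IsGRT k (ψ - γ) from hsub).pent hd ?_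
  let c0L : P2 k →ₗ[k] k[X] :=
    { toFun := c0
      map_add' := c0_add
      map_smul' := fun c q => by
        rw [Algebra.smul_def, c0_mul, c0_algebraMap, RingHom.id_apply, ← smul_eq_C_mul] }
  have e3 : c0 g = ∑ i ∈ (c0 f).support, (c0 f).coeff i • c0 (fσ i) := by
    change c0L g = _
    simp only [g, map_sum, map_smul]
    rfl
  have e4 : c0 (f - g) = c0 f - c0 g := map_sub c0L f g
  rw [e4, e3, sub_eq_zero]
  conv_lhs => rw [(c0 f).as_sum_support]
  refine Finset.sum_congr rfl fun i hi => ?_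
  rw [s3 i]
  by_cases ho : Odd i
  · rw [if_pos ho, smul_X_eq_monomial]
  · exact absurd (hev i (Nat.not_odd_iff_even.mp ho)) (Polynomial.mem_support_iff.mp hi)

theorem image_eq (𝔤 : Submodule k (F2 k)) (hgrt : 𝔤 ≤ grtSub k) (hσ : HasSoule 𝔤) :
    𝔤.map (slMap k) = (grtSub k).map (slMap k) := by
  refine le_antisymm (Submodule.map_mono hgrt) ?_
  rintro _ ⟨ψ, hψ, rfl⟩
  obtain ⟨γ, hγ, h⟩ := span_mod 𝔤 hgrt hσ hψ
  refine ⟨γ, hγ, ?_⟩
  have hsub : ψ - γ ∈ grtSub k := (grtSub k).sub_mem hψ (hgrt hγ)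
  have := slMap_zero (show IsGRT k (ψ - γ) from hsub).pent h
  rw [map_sub, sub_eq_zero] at this
  exact this.symm

theorem image_wt (𝔤 : Submodule k (F2 k)) (hgrt : 𝔤 ≤ grtSub k) (hσ : HasSoule 𝔤) (n : ℕ) :
    (𝔤 ⊓ wt k n).map (slMap k) = (grtSub k ⊓ wt k n).map (slMap k) := by
  refine le_antisymm (Submodule.map_mono (inf_le_inf_right _ hgrt)) ?_
  obtain ⟨σ, h1, h2, h3⟩ := base0' 𝔤 (fun φ h => hgrt h) hσ n
  rintro _ ⟨ψ, ⟨hψ, hn⟩, rfl⟩
  obtain ⟨γ, hγ⟩ := h3 ψ hψ hn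
  refine ⟨γ • σ, ⟨𝔤.smul_mem _ h1, (wt k n).smul_mem _ h2⟩, ?_⟩
  have hsub : ψ - γ • σ ∈ grtSub k := (grtSub k).sub_mem hψ ((grtSub k).smul_mem _ (hgrt h1))
  have := slMap_zero (show IsGRT k (ψ - γ • σ) from hsub).pent hγ
  rw [map_sub, sub_eq_zero] at this
  exact this.symm

/-- vanishing on pairs of `2 × 2` matrices -/
theorem mat_zero {ψ : F2 k} (hp : Pentagon k ψ) (hψ : ψ ∈ D2 k) (K : Type u) [CommRing K]
    [Algebra k K] (A B : Matrix (Fin 2) (Fin 2) K) : subst k A B ψ = 0 := by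
  have hψ1 : ψ ∈ D1 k := D2_le_D1 hψ
  let h : K := algebraMap k K (2 : k)⁻¹
  have hh : h + h = 1 := by
    have : (2 : k)⁻¹ + (2 : k)⁻¹ = 1 := by
      rw [← two_mul, mul_inv_cancel₀ two_ne_zero]
    simp only [h]
    rw [← map_add, this, map_one]
  let s : Matrix (Fin 2) (Fin 2) K → Matrix (Fin 2) (Fin 2) K := fun M =>
    algebraMap K (Matrix (Fin 2) (Fin 2) K) (h * (M 0 0 + M 1 1))
  have hc : ∀ M X : Matrix (Fin 2) (Fin 2) K, Commute (s M) X := fun M X =>
    Algebra.commutes (h * (M 0 0 + M 1 1)) X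
  have hsq : ∀ M X : Matrix (Fin 2) (Fin 2) K, Commute ((M - s M) * (M - s M)) X := by
    intro M X
    have e : (M - s M) * (M - s M) = algebraMap K (Matrix (Fin 2) (Fin 2) K)
        ((h * (M 0 0 - M 1 1)) * (h * (M 0 0 - M 1 1)) + M 0 1 * M 1 0) := by
      have h1 : M 0 0 - h * (M 0 0 + M 1 1) = h * (M 0 0 - M 1 1) := by
        linear_combination (- M 0 0) * hh
      have h2 : M 1 1 - h * (M 0 0 + M 1 1) = -(h * (M 0 0 - M 1 1)) := by
        linear_combination (- M 1 1) * hh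
      refine Matrix.ext fun i j => ?_
      have a00 : (M - s M) 0 0 = h * (M 0 0 - M 1 1) := by
        rw [Matrix.sub_apply, ← h1]; simp only [s, Matrix.algebraMap_matrix_apply]; simp
      have a11 : (M - s M) 1 1 = -(h * (M 0 0 - M 1 1)) := by
        rw [Matrix.sub_apply, ← h2]; simp only [s, Matrix.algebraMap_matrix_apply]; simp
      have a01 : (M - s M) 0 1 = M 0 1 := by
        rw [Matrix.sub_apply]; simp only [s, Matrix.algebraMap_matrix_apply]; simp
      have a10 : (M - s M) 1 0 = M 1 0 := by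
        rw [Matrix.sub_apply]; simp only [s, Matrix.algebraMap_matrix_apply]; simp
      fin_cases i <;> fin_cases j
      · simp only [Matrix.mul_apply, Fin.sum_univ_two, Fin.zero_eta, Fin.mk_one, a00, a01, a10, a11,
          Matrix.algebraMap_matrix_apply]
        simp
      · simp only [Matrix.mul_apply, Fin.sum_univ_two, Fin.zero_eta, Fin.mk_one, a00, a01, a10, a11,
          Matrix.algebraMap_matrix_apply]
        simp; ring
      · simp only [Matrix.mul_apply, Fin.sum_univ_two, Fin.zero_eta, Fin.mk_one, a00, a01, a10, a11,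
          Matrix.algebraMap_matrix_apply]
        simp; ring
      · simp only [Matrix.mul_apply, Fin.sum_univ_two, Fin.zero_eta, Fin.mk_one, a00, a01, a10, a11,
          Matrix.algebraMap_matrix_apply]
        simp; ring
    rw [e]
    exact Algebra.commutes _ X
  have h1 := sq_zero hp hψ (a := A - s A) (b := B - s B) (hsq A _).eq (hsq B _).eq
  have h2 := subst_shift (k := k) (g := Matrix (Fin 2) (Fin 2) K) (A := A - s A) (B := B - s B)
    (Z := s A) (W := s B) (hc _ _).symm.lie_eq (hc _ _).symm.lie_eq (hc _ _).symm.lie_eq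
    (hc _ _).symm.lie_eq (hc _ _).lie_eq hψ1
  rw [h1, sub_add_cancel, sub_add_cancel] at h2
  exact h2

/-- vanishing on the pairs with commuting squares characterizes depth at least two -/
theorem depth_iff_squares {ψ : F2 k} (hp : Pentagon k ψ) :
    DepthGE k 2 ψ ↔ ∀ (R : Type u) [Ring R] [Algebra k R] (a b : R),
      a * a * b = b * (a * a) → b * b * a = a * (b * b) → subst k a b ψ = 0 := by
  constructor
  · intro hd R _ _ a b h1 h2
    exact sq_zero hp (mem_D2_of_depth hp hd) h1 h2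
  · intro h
    have hψ1 := pentagon_mem_D1 hp
    refine depth_D2 (mem_D2_of_univ hψ1 ?_)
    let K := MvPolynomial (Fin 3) k
    let a : K := MvPolynomial.X 0
    let b : K := MvPolynomial.X 1
    let c : K := MvPolynomial.X 2
    let t : K := algebraMap k K (2 : k)⁻¹
    have ht : t + t = 1 := by
      have : (2 : k)⁻¹ + (2 : k)⁻¹ = 1 := by
        rw [← two_mul, mul_inv_cancel₀ two_ne_zero]
      simp only [t]
      rw [← map_add, this, map_one]
    let ξ : K := t * (a + b)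
    let η : K := t * (b + c)
    let ζ : K := t * (a + c)
    have ea : ξ + ζ - η = a := by simp only [ξ, η, ζ]; linear_combination a * ht
    have eb : ξ + η - ζ = b := by simp only [ξ, η, ζ]; linear_combination b * ht
    have ec : η + ζ - ξ = c := by simp only [ξ, η, ζ]; linear_combination c * ht
    have sx := sqX ξ η ζ
    have sy := sqY ξ η ζ
    rw [ea, eb] at sx
    rw [eb, ec] at sy
    have hc : ∀ (q : K) (M : Matrix (Fin 2) (Fin 2) K),
        Commute (algebraMap K (Matrix (Fin 2) (Fin 2) K) q) M := fun q M => Algebra.commutes q M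
    have h0 := h (Matrix (Fin 2) (Fin 2) K) (mX a b + algebraMap K _ ξ) (mY b c + algebraMap K _ η)
      (by rw [sx]; exact (hc _ _).eq) (by rw [sy]; exact (hc _ _).eq)
    have h2 := subst_shift (k := k) (g := Matrix (Fin 2) (Fin 2) K) (A := mX a b) (B := mY b c)
      (Z := algebraMap K _ ξ) (W := algebraMap K _ η) (hc _ _).symm.lie_eq (hc _ _).symm.lie_eq
      (hc _ _).symm.lie_eq (hc _ _).symm.lie_eq (hc _ _).lie_eq hψ1
    rw [h0] at h2
    exact h2.symm

theorem other_D2 {n : ℕ} (hcase : ¬ (Odd n ∧ 3 ≤ n)) {ψ : F2 k} (hψ : IsGRT k ψ)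
    (hn : ψ ∈ wt k n) : ψ ∈ D2 k := by
  have hcase' : ¬ (n % 2 = 1 ∧ 3 ≤ n) := by rwa [← Nat.odd_iff]
  have hψ1 := pentagon_mem_D1 hψ.pent
  obtain ⟨f, hf⟩ := exists_gam hψ1
  have hh := c0_hom hn hf
  obtain ⟨γ, hγ⟩ : ∃ γ, γ = (c0 f).eval 1 := ⟨_, rfl⟩
  rw [← hγ] at hh
  have hev := c0_even hψ hψ1 hf
  have hco : ∀ i, (c0 f).coeff i = if i + 2 = n then γ else 0 := by
    intro i
    have := congrArg (fun p => coeff p (i + 2)) hh
    simp only [coeff_X_pow_mul] at this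
    rw [this, mul_comm, coeff_C_mul_X_pow]
  refine D2_of_c0 hψ.pent hf ?_
  ext i
  rw [coeff_zero]
  by_cases hi : i + 2 = n
  · exact hev i (Nat.even_iff.mpr (by omega))
  · rw [hco, if_neg hi]

theorem soule_ne {n : ℕ} (h3 : 3 ≤ n) {σ : F2 k} (hσ : IsGRT k σ)
    (hd : DepthGE k 2 (σ - vm k (n - 1))) : slMap k σ ≠ 0 := by
  intro h
  have h2 := mem_D2_of_slMap (pentagon_mem_D1 hσ.pent) h
  have h4 := sigma_c0 h3 hd (f := 0) (by rwa [map_zero, sub_zero])
  have h5 : c0 (0 : P2 k) = 0 := by simp [c0]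
  rw [h5] at h4
  exact pow_ne_zero _ X_ne_zero h4.symm

theorem image_finrank (𝔤 : Submodule k (F2 k)) (hgrt : 𝔤 ≤ grtSub k) (hσ : HasSoule 𝔤) (n : ℕ) :
    Module.finrank k ((grtSub k ⊓ wt k n).map (slMap k)) = if Odd n ∧ 3 ≤ n then 1 else 0 := by
  split_ifs with hcase
  · obtain ⟨hodd, h3⟩ := hcase
    obtain ⟨σ, s1, s2, s3⟩ := hσ n hodd h3
    have hne : slMap k σ ≠ 0 := soule_ne h3 (hgrt s1) s3
    obtain ⟨σ', h1, h2, h4⟩ := base0' 𝔤 (fun φ h => hgrt h) hσ n
    have key : ∀ ψ ∈ grtSub k ⊓ wt k n, ∃ γ : k, slMap k ψ = γ • slMap k σ' := by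
      intro ψ hψ
      obtain ⟨γ, hγ⟩ := h4 ψ hψ.1 hψ.2
      refine ⟨γ, ?_⟩
      have hsub : ψ - γ • σ' ∈ grtSub k :=
        (grtSub k).sub_mem hψ.1 ((grtSub k).smul_mem _ (hgrt h1))
      have := slMap_zero (show IsGRT k (ψ - γ • σ') from hsub).pent hγ
      rw [map_sub, sub_eq_zero, map_smul] at this
      exact this
    have hne' : slMap k σ' ≠ 0 := by
      intro h0
      obtain ⟨γ, hγ⟩ := key σ ⟨hgrt s1, s2⟩
      rw [h0, smul_zero] at hγ
      exact hne hγ
    have hspan : (grtSub k ⊓ wt k n).map (slMap k) = Submodule.span k {slMap k σ'} := by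
      refine le_antisymm ?_ ?_
      · rintro _ ⟨ψ, hψ, rfl⟩
        obtain ⟨γ, hγ⟩ := key ψ hψ
        exact Submodule.mem_span_singleton.mpr ⟨γ, hγ.symm⟩
      · rw [Submodule.span_singleton_le_iff_mem]
        exact ⟨σ', ⟨hgrt h1, h2⟩, rfl⟩
    rw [hspan, finrank_span_singleton hne']
  · have hz : (grtSub k ⊓ wt k n).map (slMap k) = ⊥ := by
      rw [eq_bot_iff]
      rintro _ ⟨ψ, hψ, rfl⟩
      rw [Submodule.mem_bot]
      exact slMap_zero (show IsGRT k ψ from hψ.1).pent (other_D2 hcase hψ.1 hψ.2)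
    rw [hz, finrank_bot]

end image

end Pool.Agent.J4H43.SL
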