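import Pool.Agent.J4H43.SL.Sq

/-!
# Sums of transpositions in representations killed by the antisymmetrizers of three letters
-/

namespace Pool.Agent.J4H43.SL

open Pool.Agent.Helper392_GT

universe u v

attribute [local instance 100] LieRing.ofAssociativeRing

section perm

variable {ι : Type*} [DecidableEq ι] {R : Type u} [Ring R] (ρ : Equiv.Perm ι →* R)

/-- the image of a transposition -/
def tr (i j : ι) : R := ρ (Equiv.swap i j)

/-- the sum of the transpositions of elements of `A` and `B` -/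
def T (A B : Finset ι) : R := ∑ i ∈ A, ∑ j ∈ B, tr ρ i j

theorem tr_comm (i j : ι) : tr ρ i j = tr ρ j i := by
  rw [tr, tr, Equiv.swap_comm]

theorem tr_sq (i j : ι) : tr ρ i j * tr ρ i j = 1 := by
  rw [tr, ← map_mul, Equiv.swap_mul_self, map_one]

theorem tr_self (i : ι) : tr ρ i i = 1 := by
  rw [tr, Equiv.swap_self]; exact map_one ρ

theorem tr_conj (σ : Equiv.Perm ι) (i j : ι) : ρ σ * tr ρ i j = tr ρ (σ i) (σ j) * ρ σ := by
  rw [tr, tr, ← map_mul, ← map_mul, Equiv.mul_swap_eq_swap_mul]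

theorem T_conj (σ : Equiv.Perm ι) {X Y : Finset ι} (hX : ∀ i, i ∈ X ↔ σ i ∈ X)
    (hY : ∀ i, i ∈ Y ↔ σ i ∈ Y) : ρ σ * T ρ X Y = T ρ X Y * ρ σ := by
  rw [T, Finset.mul_sum, Finset.sum_mul]
  refine Finset.sum_equiv σ hX ?_
  intro i _
  rw [Finset.mul_sum, Finset.sum_mul]
  refine Finset.sum_equiv σ hY ?_
  intro j _
  exact tr_conj ρ σ i j

theorem mem_swap {i j : ι} {X : Finset ι} (h : i ∈ X ↔ j ∈ X) (x : ι) :
    x ∈ X ↔ Equiv.swap i j x ∈ X := by
  rw [Equiv.swap_apply_def]
  split_ifs with h1 h2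
  · rw [h1]; exact h
  · rw [h2]; exact h.symm
  · exact Iff.rfl

theorem tr_T {i j : ι} {X Y : Finset ι} (hX : i ∈ X ↔ j ∈ X) (hY : i ∈ Y ↔ j ∈ Y) :
    Commute (tr ρ i j) (T ρ X Y) :=
  T_conj ρ (Equiv.swap i j) (mem_swap hX) (mem_swap hY)

theorem T_T {A B X Y : Finset ι} (h : ∀ i ∈ A, ∀ j ∈ B, (i ∈ X ↔ j ∈ X) ∧ (i ∈ Y ↔ j ∈ Y)) :
    Commute (T ρ A B) (T ρ X Y) := by
  refine Commute.sum_left _ _ _ ?_
  intro i hi
  refine Commute.sum_left _ _ _ ?_
  intro j hj
  exact tr_T ρ (h i hi j hj).1 (h i hi j hj).2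

theorem T_comm (A B : Finset ι) : T ρ A B = T ρ B A := by
  rw [T, T, Finset.sum_comm]
  refine Finset.sum_congr rfl fun i _ => Finset.sum_congr rfl fun j _ => tr_comm ρ _ _

theorem T_union_left {A B : Finset ι} (h : Disjoint A B) (C : Finset ι) :
    T ρ (A ∪ B) C = T ρ A C + T ρ B C := by
  rw [T, Finset.sum_union h, T, T]

theorem T_union_right {A B : Finset ι} (h : Disjoint A B) (C : Finset ι) :
    T ρ C (A ∪ B) = T ρ C A + T ρ C B := by
  rw [T_comm, T_union_left ρ h, T_comm ρ A, T_comm ρ B]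

theorem T_empty (B : Finset ι) : T ρ B ∅ = 0 := by
  simp [T]

theorem T_single (B : Finset ι) (j : ι) : T ρ B {j} = ∑ b ∈ B, tr ρ b j := by
  simp [T]

/-- the antisymmetrizer relation -/
def Anti3 : Prop := ∀ i j l : ι, i ≠ j → i ≠ l → j ≠ l →
  tr ρ i j * tr ρ j l + tr ρ j l * tr ρ i j = tr ρ i j + tr ρ j l + tr ρ i l - 1

theorem pair_rel (h3 : Anti3 ρ) {j b b' : ι} (hb : b ≠ j) (hb' : b' ≠ j) :
    tr ρ b j * tr ρ b' j + tr ρ b' j * tr ρ b j
      = (tr ρ b b' + tr ρ b j + tr ρ b' j - 1) + (if b = b' then 2 - 2 • tr ρ b j else 0) := by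
  split_ifs with h
  · subst h
    rw [tr_sq, tr_self]
    abel_nf
    norm_num
  · rw [add_zero, tr_comm ρ b' j, h3 b j b' hb h hb'.symm]
    abel

theorem y_sq (h3 : Anti3 ρ) {B : Finset ι} {j : ι} (hj : j ∉ B) :
    2 • (T ρ B {j} * T ρ B {j}) = T ρ B B + (2 * (B.card : ℤ) - 2) • T ρ B {j}
      + ((2 * (B.card : ℤ) - (B.card : ℤ) ^ 2 : ℤ) : R) := by
  have hne : ∀ b ∈ B, b ≠ j := fun b hb e => hj (e ▸ hb)
  have e1 : 2 • (T ρ B {j} * T ρ B {j}) = ∑ b ∈ B, ∑ b' ∈ B,
      (tr ρ b j * tr ρ b' j + tr ρ b' j * tr ρ b j) := by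
    rw [T_single, Finset.sum_mul_sum, two_nsmul]
    conv_lhs => rw [show (∑ i ∈ B, ∑ j_1 ∈ B, tr ρ i j * tr ρ j_1 j
        + ∑ i ∈ B, ∑ j_1 ∈ B, tr ρ i j * tr ρ j_1 j) =
        (∑ i ∈ B, ∑ j_1 ∈ B, tr ρ i j * tr ρ j_1 j
        + ∑ i ∈ B, ∑ j_1 ∈ B, tr ρ j_1 j * tr ρ i j) from by
          congr 1; rw [Finset.sum_comm]]
    rw [← Finset.sum_add_distrib]
    refine Finset.sum_congr rfl fun b _ => ?_
    rw [← Finset.sum_add_distrib]
  rw [e1]
  have e2 : ∑ b ∈ B, ∑ b' ∈ B, (tr ρ b j * tr ρ b' j + tr ρ b' j * tr ρ b j)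
      = ∑ b ∈ B, (∑ b' ∈ B, tr ρ b b' + B.card • tr ρ b j + T ρ B {j} - B.card • (1 : R)
        + (2 - 2 • tr ρ b j)) := by
    refine Finset.sum_congr rfl fun b hb => ?_
    rw [Finset.sum_congr rfl fun b' hb' => pair_rel ρ h3 (hne b hb) (hne b' hb')]
    rw [Finset.sum_add_distrib, Finset.sum_sub_distrib, Finset.sum_add_distrib,
      Finset.sum_add_distrib, Finset.sum_ite_eq, if_pos hb, T_single]
    simp
  rw [e2, Finset.sum_add_distrib, Finset.sum_sub_distrib, Finset.sum_add_distrib,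
      Finset.sum_add_distrib, Finset.sum_sub_distrib, ← Finset.smul_sum, ← Finset.smul_sum,
      ← T_single, Finset.sum_const, Finset.sum_const, Finset.sum_const]
  have e3 : ∑ b ∈ B, ∑ b' ∈ B, tr ρ b b' = T ρ B B := rfl
  rw [e3]
  have e4 : (B.card • (2 : R)) = ((2 * (B.card : ℤ) : ℤ) : R) := by
    rw [nsmul_eq_mul]; push_cast; exact (Nat.cast_commute _ _).eq
  have e5 : (B.card • B.card • (1 : R)) = (((B.card : ℤ) ^ 2 : ℤ) : R) := by
    rw [nsmul_eq_mul, nsmul_eq_mul, mul_one]; push_cast; rw [sq]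
  rw [e4, e5, Int.cast_sub, sub_smul, mul_smul, natCast_zsmul]
  have e6 : (2 : ℤ) • (B.card • T ρ B {j}) = B.card • T ρ B {j} + B.card • T ρ B {j} :=
    two_zsmul _
  have e7 : (2 : ℤ) • T ρ B {j} = 2 • T ρ B {j} := by
    rw [two_zsmul, two_nsmul]
  have e8 : ∑ x ∈ B, 2 • tr ρ x j = 2 • T ρ B {j} := by rw [T_single, Finset.smul_sum]
  rw [e6, e7, e8]
  abel

end perm

section main

variable {k : Type u} [Field k] [CharZero k] {ι : Type*} [DecidableEq ι] {R : Type u} [Ring R]
  [Algebra k R] (ρ : Equiv.Perm ι →* R)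

/-- the shifted square is central up to `T B B` -/
theorem y_shift (h3 : Anti3 ρ) {B : Finset ι} {j : ι} (hj : j ∉ B) : ∃ c d : k,
    (T ρ B {j} - algebraMap k R c) * (T ρ B {j} - algebraMap k R c)
      = (2 : k)⁻¹ • T ρ B B + algebraMap k R d := by
  have h := y_sq ρ h3 hj
  set y := T ρ B {j}
  generalize (B.card : ℤ) = m at h
  have h2 : (2 : k) ≠ 0 := two_ne_zero
  have e : y * y = (2 : k)⁻¹ • T ρ B B + ((m : k) - 1) • y
      + algebraMap k R ((m : k) - (m : k) ^ 2 / 2) := by
    have : (2 : k) • (y * y) = (2 : k) • ((2 : k)⁻¹ • T ρ B B + ((m : k) - 1) • y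
      + algebraMap k R ((m : k) - (m : k) ^ 2 / 2)) := by
      have e0 : (2 : k) • (y * y) = 2 • (y * y) := by
        rw [two_nsmul, two_smul]
      rw [e0, h, smul_add, smul_add, smul_smul, mul_inv_cancel₀ h2, one_smul, smul_smul,
        Algebra.smul_def (2 : k) (algebraMap k R _), ← map_mul]
      congr 1
      · congr 1
        rw [← Int.cast_smul_eq_zsmul k]
        congr 1
        push_cast
        ring
      · rw [show (2 : k) * ((m : k) - (m : k) ^ 2 / 2) = ((2 * m - m ^ 2 : ℤ) : k) by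
          push_cast; field_simp, map_intCast]
    exact smul_right_injective R h2 this
  refine ⟨((m : k) - 1) / 2, (m : k) - (m : k) ^ 2 / 2 + (((m : k) - 1) / 2) ^ 2, ?_⟩
  have hc : y * algebraMap k R (((m : k) - 1) / 2) = algebraMap k R (((m : k) - 1) / 2) * y :=
    (Algebra.commutes _ _).symm
  have e1 : ((m : k) - 1) • y = algebraMap k R (((m : k) - 1) / 2) * y
      + algebraMap k R (((m : k) - 1) / 2) * y := by
    rw [Algebra.smul_def, ← add_mul, ← map_add]
    congr 2
    ring
  rw [sub_mul, mul_sub, mul_sub, e, hc, map_add _ ((m : k) - (m : k) ^ 2 / 2),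
    sq (((m : k) - 1) / 2), map_mul, e1]
  abel

/-- vanishing on `(-y-z, y)` -/
theorem yz_zero (h3 : Anti3 ρ) {ψ : F2 k} (hp : Pentagon k ψ) (hψ : ψ ∈ D2 k) {A B : Finset ι}
    {j : ι} (hAB : Disjoint A B) (hA : j ∉ A) (hB : j ∉ B) :
    subst k (-(T ρ B {j} + T ρ A {j})) (T ρ B {j}) ψ = 0 := by
  have hψ1 : ψ ∈ D1 k := D2_le_D1 hψ
  obtain ⟨c, d, hy⟩ := y_shift (k := k) ρ h3 hB
  obtain ⟨c', d', hz⟩ := y_shift (k := k) ρ h3 hA
  set y := T ρ B {j}
  set z := T ρ A {j}
  have cBA : Commute (T ρ B B) z := by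
    apply T_T
    intro i hi i' hi'
    have n1 : i ∉ A := fun h => Finset.disjoint_left.mp hAB h hi
    have n2 : i' ∉ A := fun h => Finset.disjoint_left.mp hAB h hi'
    have n3 : i ≠ j := fun e => hB (e ▸ hi)
    have n4 : i' ≠ j := fun e => hB (e ▸ hi')
    simp [n1, n2, n3, n4]
  have cAB : Commute (T ρ A A) y := by
    apply T_T
    intro i hi i' hi'
    have n1 : i ∉ B := fun h => Finset.disjoint_left.mp hAB hi h
    have n2 : i' ∉ B := fun h => Finset.disjoint_left.mp hAB hi' h
    have n3 : i ≠ j := fun e => hA (e ▸ hi)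
    have n4 : i' ≠ j := fun e => hA (e ▸ hi')
    simp [n1, n2, n3, n4]
  have calg : ∀ (t : k) (w : R), Commute (algebraMap k R t) w := fun t w => Algebra.commutes t w
  set y' := y - algebraMap k R c
  set z' := z - algebraMap k R c'
  have hyz : Commute (y' * y') z' := by
    rw [hy]
    exact ((cBA.sub_right (calg _ _).symm).smul_left _).add_left (calg _ _)
  have hzy : Commute (z' * z') y' := by
    rw [hz]
    exact ((cAB.sub_right (calg _ _).symm).smul_left _).add_left (calg _ _)
  have hyy : Commute (y' * y') y' := (Commute.refl y').mul_left (Commute.refl y')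
  have hzz : Commute (z' * z') z' := (Commute.refl z').mul_left (Commute.refl z')
  have key := sq_zero hp hψ (a := -(y' + z')) (b := y')
    (by
      have : -(y' + z') * -(y' + z') * y' - y' * (-(y' + z') * -(y' + z'))
          = -(y' * y' * z' - z' * (y' * y')) + (z' * z' * y' - y' * (z' * z')) := by
        noncomm_ring
      rw [hyz.eq, hzy.eq, sub_self, sub_self, neg_zero, zero_add] at this
      exact sub_eq_zero.mp this)
    (by
      rw [mul_neg, neg_mul, mul_add, add_mul, hyz.eq, hyy.eq])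
  have hsh := subst_shift (k := k) (g := R) (A := -(y' + z')) (B := y')
    (Z := -(algebraMap k R c + algebraMap k R c')) (W := algebraMap k R c)
    (by
      rw [lie_neg, lie_add, (calg c _).symm.lie_eq, (calg c' _).symm.lie_eq]; simp)
    (by
      rw [lie_neg, lie_add, (calg c _).symm.lie_eq, (calg c' _).symm.lie_eq]; simp)
    ((calg c _).symm.lie_eq) ((calg c _).symm.lie_eq)
    (by
      rw [neg_lie, add_lie, (calg c _).lie_eq, (calg c' _).lie_eq]; simp) hψ1
  rw [key] at hsh
  have e1 : -(y + z) = -(y' + z') + -(algebraMap k R c + algebraMap k R c') := by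
    simp only [y', z']; abel
  have e2 : y = y' + algebraMap k R c := by simp only [y']; abel
  rw [e1]
  conv_lhs => rw [e2]
  exact hsh

/-- the case where the third block is one letter -/
theorem base_zero (h3 : Anti3 ρ) {ψ : F2 k} (hp : Pentagon k ψ) (hψ : ψ ∈ D2 k)
    {A B : Finset ι} {j : ι} (hAB : Disjoint A B) (hA : j ∉ A) (hB : j ∉ B) :
    subst k (T ρ A B) (T ρ B {j}) ψ = 0 := by
  have hψ1 : ψ ∈ D1 k := D2_le_D1 hψ
  have key := yz_zero ρ h3 hp hψ hAB hA hB
  have hAj : Disjoint A {j} := Finset.disjoint_singleton_right.mpr hA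
  have hBj : Disjoint B {j} := Finset.disjoint_singleton_right.mpr hB
  set y := T ρ B {j} with hy
  set z := T ρ A {j} with hz
  set x := T ρ A B with hx
  have nd : ∀ {X Y : Finset ι}, Disjoint X Y → ∀ i ∈ X, i ∉ Y := fun h i hi hi' =>
    Finset.disjoint_left.mp h hi hi'
  -- `x` commutes with `y + z`
  have c1 : Commute x (z + y) := by
    rw [hz, hy, ← T_union_left ρ hAB]
    apply T_T
    intro i hi i' hi'
    have n1 := nd hAj i hi
    have n2 := nd hBj i' hi'
    simp [hi, hi', Finset.mem_singleton] at n1 n2 ⊢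
    simp [n1, n2]
  -- `y` commutes with `x + z`
  have c2 : Commute y (x + z) := by
    rw [hx, hz, ← T_union_right ρ hBj]
    apply T_T
    intro i hi i' hi'
    have n1 := nd hAB.symm i hi
    have n2 : i' ∉ A := nd hAj.symm i' hi'
    rw [Finset.mem_singleton] at hi'
    simp [hi, n1, hi']
    subst hi'
    simp [n2]
  have cx : Commute x (x + y + z) := by
    have : x + y + z = x + (z + y) := by abel
    rw [this]; exact (Commute.refl x).add_right c1
  have cy : Commute y (x + y + z) := by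
    have : x + y + z = y + (x + z) := by abel
    rw [this]; exact (Commute.refl y).add_right c2
  have cz : Commute z (x + y + z) := by
    have : Commute (x + y + z - x - y) (x + y + z) :=
      ((Commute.refl _).sub_left cx).sub_left cy
    have e : x + y + z - x - y = z := by abel
    rwa [e] at this
  have cyz : Commute (-(y + z)) (x + y + z) := (cy.add_left cz).neg_left
  have hsh := subst_shift (k := k) (g := R) (A := -(y + z)) (B := y)
    (Z := x + y + z) (W := 0) cyz.lie_eq cy.lie_eq (lie_zero _) (lie_zero _) (lie_zero _) hψ1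
  rw [key, add_zero] at hsh
  have e : -(y + z) + (x + y + z) = x := by abel
  rwa [e] at hsh

/-- A solution of the pentagon equation in `L''` vanishes on all block sums of transpositions. -/
theorem block_zero (h3 : Anti3 ρ) {ψ : F2 k} (hp : Pentagon k ψ) (hψ : ψ ∈ D2 k)
    (C : Finset ι) : ∀ {A B : Finset ι}, Disjoint A B → Disjoint A C → Disjoint B C →
    subst k (T ρ A B) (T ρ B C) ψ = 0 := by
  have hψ1 : ψ ∈ D1 k := D2_le_D1 hψ
  induction C using Finset.induction_on with
  | empty =>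
    intro A B _ _ _
    rw [T_empty]
    exact subst_comm hψ1 (lie_zero _)
  | insert j C hj ih =>
    intro A B hAB hAC hBC
    rw [Finset.disjoint_insert_right] at hAC hBC
    have hAj : Disjoint A {j} := Finset.disjoint_singleton_right.mpr hAC.1
    have hBj : Disjoint B {j} := Finset.disjoint_singleton_right.mpr hBC.1
    have hCj : Disjoint C {j} := Finset.disjoint_singleton_right.mpr hj
    let bl : Fin 4 → Finset ι := ![A, B, C, {j}]
    have hdis : ∀ i l : Fin 4, i ≠ l → Disjoint (bl i) (bl l) := by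
      intro i l hil
      fin_cases i <;> fin_cases l <;> first | exact absurd rfl hil | skip
      · exact hAB
      · exact hAC.2
      · exact hAj
      · exact hAB.symm
      · exact hBC.2
      · exact hBj
      · exact hAC.2.symm
      · exact hBC.2.symm
      · exact hCj
      · exact hAj.symm
      · exact hBj.symm
      · exact hCj.symm
    have nd : ∀ {X Y : Finset ι}, Disjoint X Y → ∀ i ∈ X, i ∉ Y := fun h i hi hi' =>
      Finset.disjoint_left.mp h hi hi'
    let t : Fin 4 → Fin 4 → R := fun i l => if i = l then 0 else T ρ (bl i) (bl l)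
    have h := pentagon_apply hp t
      (fun i => by simp [t])
      (fun i l => by
        by_cases e : i = l
        · rw [e]
        · simp only [t, if_neg e, if_neg (Ne.symm e)]
          exact T_comm ρ _ _)
      (fun i l m n h1 h2 h3 h4 h5 h6 => by
        simp only [t, if_neg h1, if_neg h6]
        apply Commute.lie_eq
        apply T_T
        intro a ha b hb
        simp [nd (hdis i m h2) a ha, nd (hdis i n h3) a ha, nd (hdis l m h4) b hb,
          nd (hdis l n h5) b hb])
      (fun i l m h1 h2 h3 => by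
        simp only [t, if_neg h1, if_neg h2, if_neg h3]
        apply Commute.lie_eq
        rw [← T_union_left ρ (hdis i l h1)]
        apply T_T
        intro a ha b hb
        simp [ha, hb, nd (hdis i m h2) a ha, nd (hdis l m h3) b hb])
    have b1 := base_zero ρ h3 hp hψ (A := A ∪ B) (B := C) (j := j)
      (Finset.disjoint_union_left.mpr ⟨hAC.2, hBC.2⟩)
      (by rw [Finset.mem_union]; exact fun h => h.elim hAC.1 hBC.1) hj
    have b2 := base_zero ρ h3 hp hψ (A := B) (B := C) (j := j) hBC.2 hBC.1 hj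
    have b3 := base_zero ρ h3 hp hψ (A := A) (B := B ∪ C) (j := j)
      (Finset.disjoint_union_right.mpr ⟨hAB, hAC.2⟩) hAC.1
      (by rw [Finset.mem_union]; exact fun h => h.elim hBC.1 hj)
    rw [T_union_left ρ hAB] at b1
    rw [T_union_right ρ hBC.2, T_union_left ρ hBC.2] at b3
    have t01 : t 0 1 = T ρ A B := by simp [t, bl]
    have t02 : t 0 2 = T ρ A C := by simp [t, bl]
    have t12 : t 1 2 = T ρ B C := by simp [t, bl]
    have t13 : t 1 3 = T ρ B {j} := by simp [t, bl]
    have t23 : t 2 3 = T ρ C {j} := by simp [t, bl]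
    rw [t01, t02, t12, t13, t23, b1, b2, b3, ih hAB hAC.2 hBC.2] at h
    simp only [add_zero] at h
    have e : T ρ B (insert j C) = T ρ B C + T ρ B {j} := by
      rw [Finset.insert_eq, Finset.union_comm, T_union_right ρ hCj]
    rw [e]
    exact h

end main

end Pool.Agent.J4H43.SL
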