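import Pool.Agent.J4H43.SL.Two

/-!
# Pairs of elements with central squares

The value of a Lie polynomial at two elements `a`, `b` such that `a²`, `b²` and `(a + b)²` are
central is given by universal polynomials.
-/

namespace Pool.Agent.J4H43.SL

open Pool.Agent.Helper392_GT MvPolynomial

universe u v

attribute [local instance 100] LieRing.ofAssociativeRing

set_option linter.unusedSimpArgs false

section quat

variable {k : Type u} [CommRing k]

section alg

variable {K R : Type u} [CommRing K] [Ring R] [Algebra K R] {a b : R} {α β δ : K}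

theorem ab_eq (ha : a * a = algebraMap K R α) (hb : b * b = algebraMap K R β)
    (hd : (a + b) * (a + b) = algebraMap K R δ) : a * b = algebraMap K R (δ - α - β) - b * a := by
  rw [map_sub, map_sub, ← ha, ← hb, ← hd]
  noncomm_ring

theorem lie_aab (ha : a * a = algebraMap K R α) (hb : b * b = algebraMap K R β)
    (hd : (a + b) * (a + b) = algebraMap K R δ) :
    ⁅a, ⁅a, b⁆⁆ = (4 * α) • b - (2 * (δ - α - β)) • a := by
  have hab := ab_eq ha hb hd
  have h1 : a * b * a = (δ - α - β) • a - α • b := by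
    rw [hab, sub_mul, mul_assoc, ha, ← Algebra.commutes, Algebra.smul_def, Algebra.smul_def]
  have h2 : a * (a * b) = α • b := by
    rw [← mul_assoc, ha, Algebra.smul_def]
  have h3 : b * a * a = α • b := by
    rw [mul_assoc, ha, ← Algebra.commutes, Algebra.smul_def]
  have h4 : a * (b * a) = (δ - α - β) • a - α • b := by rw [← mul_assoc, h1]
  rw [Ring.lie_def, Ring.lie_def, mul_sub, sub_mul, h1, h2, h3, h4]
  module

theorem lie_bab (ha : a * a = algebraMap K R α) (hb : b * b = algebraMap K R β)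
    (hd : (a + b) * (a + b) = algebraMap K R δ) :
    ⁅b, ⁅a, b⁆⁆ = (2 * (δ - α - β)) • b - (4 * β) • a := by
  have h := lie_aab (a := b) (b := a) (α := β) (β := α) (δ := δ) hb ha (by rw [add_comm]; exact hd)
  rw [← lie_skew a b, lie_neg, h]
  module

end alg

theorem quat_form (u : F2 k) : ∃ p : Fin 3 → MvPolynomial (Fin 3) k,
    ∀ (K R : Type u) [CommRing K] [Ring R] [Algebra k K] [Algebra k R] [Algebra K R]
      [IsScalarTower k K R] (a b : R) (α β δ : K), a * a = algebraMap K R α →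
      b * b = algebraMap K R β → (a + b) * (a + b) = algebraMap K R δ →
      subst k a b u = (aeval ![α, β, δ] (p 0) : K) • a + (aeval ![α, β, δ] (p 1) : K) • b
        + (aeval ![α, β, δ] (p 2) : K) • ⁅a, b⁆ := by
  refine free_ind (fun u => ∃ p : Fin 3 → MvPolynomial (Fin 3) k,
    ∀ (K R : Type u) [CommRing K] [Ring R] [Algebra k K] [Algebra k R] [Algebra K R]
      [IsScalarTower k K R] (a b : R) (α β δ : K), a * a = algebraMap K R α →
      b * b = algebraMap K R β → (a + b) * (a + b) = algebraMap K R δ →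
      subst k a b u = (aeval ![α, β, δ] (p 0) : K) • a + (aeval ![α, β, δ] (p 1) : K) • b
        + (aeval ![α, β, δ] (p 2) : K) • ⁅a, b⁆) ?_ ?_ ?_ ?_ ?_ ?_ u
  · refine ⟨fun _ => 0, ?_⟩
    intro K R _ _ _ _ _ _ a b α β δ _ _ _
    simp
  · rintro u v ⟨p, hp⟩ ⟨q, hq⟩
    refine ⟨fun i => p i + q i, ?_⟩
    intro K R _ _ _ _ _ _ a b α β δ h1 h2 h3
    rw [map_add, hp K R a b α β δ h1 h2 h3, hq K R a b α β δ h1 h2 h3]
    simp only [map_add, add_smul]
    abel
  · rintro c u ⟨p, hp⟩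
    refine ⟨fun i => c • p i, ?_⟩
    intro K R _ _ _ _ _ _ a b α β δ h1 h2 h3
    rw [map_smul, hp K R a b α β δ h1 h2 h3]
    simp only [map_smul, smul_add, smul_assoc]
  · rintro u v ⟨p, hp⟩ ⟨q, hq⟩
    refine ⟨![-2 * (X 2 - X 0 - X 1) * (p 0 * q 2 - p 2 * q 0) - 4 * X 1 * (p 1 * q 2 - p 2 * q 1),
      4 * X 0 * (p 0 * q 2 - p 2 * q 0) + 2 * (X 2 - X 0 - X 1) * (p 1 * q 2 - p 2 * q 1),
      p 0 * q 1 - p 1 * q 0], ?_⟩
    intro K R _ _ _ _ _ _ a b α β δ h1 h2 h3
    rw [LieHom.map_lie, hp K R a b α β δ h1 h2 h3, hq K R a b α β δ h1 h2 h3]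
    have e1 := lie_aab h1 h2 h3
    have e2 := lie_bab h1 h2 h3
    have e3 : ⁅⁅a, b⁆, a⁆ = -⁅a, ⁅a, b⁆⁆ := by rw [lie_skew]
    have e4 : ⁅⁅a, b⁆, b⁆ = -⁅b, ⁅a, b⁆⁆ := by rw [lie_skew]
    have e5 : ⁅b, a⁆ = -⁅a, b⁆ := by rw [lie_skew]
    have key : ∀ p0 p1 p2 q0 q1 q2 : K, ⁅p0 • a + p1 • b + p2 • ⁅a, b⁆,
        q0 • a + q1 • b + q2 • ⁅a, b⁆⁆ =
        (-2 * (δ - α - β) * (p0 * q2 - p2 * q0) - 4 * β * (p1 * q2 - p2 * q1)) • a
        + (4 * α * (p0 * q2 - p2 * q0) + 2 * (δ - α - β) * (p1 * q2 - p2 * q1)) • b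
        + (p0 * q1 - p1 * q0) • ⁅a, b⁆ := by
      intro p0 p1 p2 q0 q1 q2
      have ls : ∀ (t : K) (x y : R), ⁅x, t • y⁆ = t • ⁅x, y⁆ := by
        intro t x y
        rw [Ring.lie_def, Ring.lie_def, mul_smul_comm, smul_mul_assoc, smul_sub]
      simp only [lie_add, add_lie, ls, smul_lie]
      rw [lie_self, lie_self, lie_self, e3, e4, e1, e2, e5]
      module
    rw [key]
    congr 2
    · congr 1
      simp
    · congr 1
      simp
    · simp
  · refine ⟨![1, 0, 0], ?_⟩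
    intro K R _ _ _ _ _ _ a b α β δ _ _ _
    rw [subst_x]
    simp
  · refine ⟨![0, 1, 0], ?_⟩
    intro K R _ _ _ _ _ _ a b α β δ _ _ _
    rw [subst_y]
    simp

end quat

end Pool.Agent.J4H43.SL
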