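import Pool.Agent.J4H43.SL.Quat

/-!
# Vanishing on pairs of elements whose squares commute with both of them
-/

namespace Pool.Agent.J4H43.SL

open Pool.Agent.Helper392_GT MvPolynomial

universe u v

attribute [local instance 100] LieRing.ofAssociativeRing

section coef

variable {k : Type u} [CommRing k]

theorem map_subst {g h : Type*} [LieRing g] [LieAlgebra k g] [LieRing h] [LieAlgebra k h]
    (φ : g →ₗ⁅k⁆ h) (a b : g) (u : F2 k) : φ (subst k a b u) = subst k (φ a) (φ b) u := by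
  refine free_ind (fun u => φ (subst k a b u) = subst k (φ a) (φ b) u) ?_ ?_ ?_ ?_ ?_ ?_ u
  · simp
  · intro u v h1 h2
    simp [h1, h2]
  · intro c u h1
    simp [h1]
  · intro u v h1 h2
    simp [h1, h2]
  · simp [subst_x]
  · simp [subst_y]

/-- independence of the three matrices -/
theorem indep {K : Type*} [CommRing K] [IsDomain K] {ξ η ζ c0 c1 c2 : K}
    (ha : ξ + ζ - η ≠ 0) (hb : ξ + η - ζ ≠ 0) (hc : η + ζ - ξ ≠ 0) (hs : ξ + η + ζ ≠ 0)
    (h : c0 • (mX (ξ + ζ - η) (ξ + η - ζ) + algebraMap K (Matrix (Fin 2) (Fin 2) K) ξ)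
      + c1 • (mY (ξ + η - ζ) (η + ζ - ξ) + algebraMap K (Matrix (Fin 2) (Fin 2) K) η)
      + c2 • ⁅mX (ξ + ζ - η) (ξ + η - ζ) + algebraMap K (Matrix (Fin 2) (Fin 2) K) ξ,
        mY (ξ + η - ζ) (η + ζ - ξ) + algebraMap K (Matrix (Fin 2) (Fin 2) K) η⁆ = 0) :
    c0 = 0 ∧ c1 = 0 ∧ c2 = 0 := by
  have e01 := congrFun (congrFun h 0) 1
  have e10 := congrFun (congrFun h 1) 0
  have e00 := congrFun (congrFun h 0) 0
  simp [mX, mY, Ring.lie_def, Matrix.mul_apply, Fin.sum_univ_two, Matrix.algebraMap_matrix_apply]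
    at e00 e01 e10
  have f1 : (η + ζ - ξ) * (c1 - 2 * ξ * c2) = 0 := by linear_combination e01
  have f0 : (ξ + ζ - η) * (c0 + 2 * η * c2) = 0 := by linear_combination e10
  have g1 := (mul_eq_zero.mp f1).resolve_left hc
  have g0 := (mul_eq_zero.mp f0).resolve_left ha
  have g2 : ((ξ + η - ζ) * (ξ + η + ζ)) * c2 = 0 := by
    linear_combination e00 + ξ * g0 - η * g1
  have h2 := (mul_eq_zero.mp g2).resolve_left (mul_ne_zero hb hs)
  refine ⟨?_, ?_, h2⟩
  · rw [h2] at g0; simpa using g0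
  · rw [h2] at g1; simpa using g1

theorem sqX {K : Type*} [CommRing K] (ξ η ζ : K) :
    (mX (ξ + ζ - η) (ξ + η - ζ) + algebraMap K (Matrix (Fin 2) (Fin 2) K) ξ)
      * (mX (ξ + ζ - η) (ξ + η - ζ) + algebraMap K (Matrix (Fin 2) (Fin 2) K) ξ)
      = algebraMap K (Matrix (Fin 2) (Fin 2) K) (ξ ^ 2) := by
  refine Matrix.ext fun i j => ?_
  fin_cases i <;> fin_cases j <;>
    simp [mX, Matrix.mul_apply, Fin.sum_univ_two, Matrix.algebraMap_matrix_apply] <;> ring

theorem sqY {K : Type*} [CommRing K] (ξ η ζ : K) :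
    (mY (ξ + η - ζ) (η + ζ - ξ) + algebraMap K (Matrix (Fin 2) (Fin 2) K) η)
      * (mY (ξ + η - ζ) (η + ζ - ξ) + algebraMap K (Matrix (Fin 2) (Fin 2) K) η)
      = algebraMap K (Matrix (Fin 2) (Fin 2) K) (η ^ 2) := by
  refine Matrix.ext fun i j => ?_
  fin_cases i <;> fin_cases j <;>
    simp [mY, Matrix.mul_apply, Fin.sum_univ_two, Matrix.algebraMap_matrix_apply] <;> ring

theorem sqXY {K : Type*} [CommRing K] (ξ η ζ : K) :
    (mX (ξ + ζ - η) (ξ + η - ζ) + algebraMap K (Matrix (Fin 2) (Fin 2) K) ξ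
      + (mY (ξ + η - ζ) (η + ζ - ξ) + algebraMap K (Matrix (Fin 2) (Fin 2) K) η))
      * (mX (ξ + ζ - η) (ξ + η - ζ) + algebraMap K (Matrix (Fin 2) (Fin 2) K) ξ
      + (mY (ξ + η - ζ) (η + ζ - ξ) + algebraMap K (Matrix (Fin 2) (Fin 2) K) η))
      = algebraMap K (Matrix (Fin 2) (Fin 2) K) (ζ ^ 2) := by
  refine Matrix.ext fun i j => ?_
  fin_cases i <;> fin_cases j <;>
    simp [mX, mY, Matrix.mul_apply, Fin.sum_univ_two, Matrix.algebraMap_matrix_apply] <;> ring

/-- the three coefficients vanish -/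
theorem coef_zero [IsDomain k] {ψ : F2 k} (hp : Pentagon k ψ) (hψ : ψ ∈ D2 k)
    {p : Fin 3 → MvPolynomial (Fin 3) k}
    (h : ∀ (K R : Type u) [CommRing K] [Ring R] [Algebra k K] [Algebra k R] [Algebra K R]
      [IsScalarTower k K R] (a b : R) (α β δ : K), a * a = algebraMap K R α →
      b * b = algebraMap K R β → (a + b) * (a + b) = algebraMap K R δ →
      subst k a b ψ = (aeval ![α, β, δ] (p 0) : K) • a + (aeval ![α, β, δ] (p 1) : K) • b
        + (aeval ![α, β, δ] (p 2) : K) • ⁅a, b⁆) : p 0 = 0 ∧ p 1 = 0 ∧ p 2 = 0 := by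
  let K := MvPolynomial (Fin 3) k
  let ξ : K := X 0
  let η : K := X 1
  let ζ : K := X 2
  let R := Matrix (Fin 2) (Fin 2) K
  have hψ1 : ψ ∈ D1 k := D2_le_D1 hψ
  have na : ξ + ζ - η ≠ 0 := by
    intro e
    have := congrArg (aeval (R := k) ![(1 : k), 0, 0]) e
    simp [ξ, η, ζ] at this
  have nb : ξ + η - ζ ≠ 0 := by
    intro e
    have := congrArg (aeval (R := k) ![(1 : k), 0, 0]) e
    simp [ξ, η, ζ] at this
  have nc : η + ζ - ξ ≠ 0 := by
    intro e
    have := congrArg (aeval (R := k) ![(0 : k), 1, 0]) e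
    simp [ξ, η, ζ] at this
  have ns : ξ + η + ζ ≠ 0 := by
    intro e
    have := congrArg (aeval (R := k) ![(1 : k), 0, 0]) e
    simp [ξ, η, ζ] at this
  have hs : (ξ + ζ - η) + (ξ + η - ζ) + (η + ζ - ξ) ≠ 0 := by
    have : (ξ + ζ - η) + (ξ + η - ζ) + (η + ζ - ξ) = ξ + η + ζ := by ring
    rw [this]; exact ns
  have h0 := two_zero hp hψ (ξ + ζ - η) (ξ + η - ζ) (η + ζ - ξ) nb hs
  have hcx : ∀ (t : K) (m : R), ⁅m, algebraMap K R t⁆ = 0 := by
    intro t m
    rw [Ring.lie_def, ← Algebra.commutes, sub_self]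
  have h1 := subst_shift (k := k) (g := R) (A := mX (ξ + ζ - η) (ξ + η - ζ))
    (B := mY (ξ + η - ζ) (η + ζ - ξ)) (Z := algebraMap K R ξ) (W := algebraMap K R η)
    (hcx _ _) (hcx _ _) (hcx _ _) (hcx _ _) (hcx _ _) hψ1
  rw [h0] at h1
  have h2 := h K R (mX (ξ + ζ - η) (ξ + η - ζ) + algebraMap K R ξ)
    (mY (ξ + η - ζ) (η + ζ - ξ) + algebraMap K R η) (ξ ^ 2) (η ^ 2) (ζ ^ 2)
    (sqX ξ η ζ) (sqY ξ η ζ) (sqXY ξ η ζ)
  rw [h1] at h2
  have h3 := indep na nb nc ns h2.symm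
  have hexp : ∀ q : MvPolynomial (Fin 3) k, aeval ![ξ ^ 2, η ^ 2, ζ ^ 2] q = expand 2 q := by
    intro q
    have : (aeval ![ξ ^ 2, η ^ 2, ζ ^ 2] : MvPolynomial (Fin 3) k →ₐ[k] K) = expand 2 := by
      apply MvPolynomial.algHom_ext
      intro i
      rw [aeval_X, expand_X]
      fin_cases i <;> rfl
    rw [this]
  rw [hexp, hexp, hexp] at h3
  exact ⟨(expand_eq_zero two_pos).mp h3.1, (expand_eq_zero two_pos).mp h3.2.1,
    (expand_eq_zero two_pos).mp h3.2.2⟩

/-- vanishing when the squares are scalars of a central subring -/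
theorem quat_zero [IsDomain k] {ψ : F2 k} (hp : Pentagon k ψ) (hψ : ψ ∈ D2 k)
    (K R : Type u) [CommRing K] [Ring R] [Algebra k K] [Algebra k R] [Algebra K R]
    [IsScalarTower k K R] (a b : R) (α β δ : K) (h1 : a * a = algebraMap K R α)
    (h2 : b * b = algebraMap K R β) (h3 : (a + b) * (a + b) = algebraMap K R δ) :
    subst k a b ψ = 0 := by
  obtain ⟨p, hP⟩ := quat_form ψ
  obtain ⟨p0, p1, p2⟩ := coef_zero hp hψ hP
  rw [hP K R a b α β δ h1 h2 h3, p0, p1, p2]
  simp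

theorem quat_zero' [IsDomain k] {ψ : F2 k} (hp : Pentagon k ψ) (hψ : ψ ∈ D2 k)
    (K R : Type u) [CommRing K] [Ring R] [Algebra k K] [Algebra k R] (i : K →ₐ[k] R)
    (hi : ∀ c x, i c * x = x * i c) (a b : R) (α β δ : K) (h1 : a * a = i α)
    (h2 : b * b = i β) (h3 : (a + b) * (a + b) = i δ) :
    subst k a b ψ = 0 := by
  let _ : Algebra K R := RingHom.toAlgebra' i.toRingHom hi
  have _ : IsScalarTower k K R := IsScalarTower.of_algebraMap_eq (fun x => (i.commutes x).symm)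
  exact quat_zero hp hψ K R a b α β δ h1 h2 h3

/-- A solution `ψ ∈ L''` of the pentagon equation vanishes at `(a, b)` whenever `a²` commutes
with `b` and `b²` commutes with `a`. -/
theorem sq_zero [IsDomain k] {ψ : F2 k} (hp : Pentagon k ψ) (hψ : ψ ∈ D2 k)
    {R : Type u} [Ring R] [Algebra k R] {a b : R} (h1 : a * a * b = b * (a * a))
    (h2 : b * b * a = a * (b * b)) : subst k a b ψ = 0 := by
  let S : Subalgebra k R := Subalgebra.centralizer k {a * a, b * b, (a + b) * (a + b)}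
  have haa : a * a * a = a * (a * a) := mul_assoc a a a
  have hbb : b * b * b = b * (b * b) := mul_assoc b b b
  have hda : (a + b) * (a + b) * a = a * ((a + b) * (a + b)) := by
    have : (a + b) * (a + b) * a - a * ((a + b) * (a + b)) = (b * b * a - a * (b * b))
      - (a * a * b - b * (a * a)) := by noncomm_ring
    rw [h1, h2, sub_self, sub_self, sub_zero] at this
    exact sub_eq_zero.mp this
  have hdb : (a + b) * (a + b) * b = b * ((a + b) * (a + b)) := by
    have : (a + b) * (a + b) * b - b * ((a + b) * (a + b)) = (a * a * b - b * (a * a))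
      - (b * b * a - a * (b * b)) := by noncomm_ring
    rw [h1, h2, sub_self, sub_self, sub_zero] at this
    exact sub_eq_zero.mp this
  have ha : a ∈ S := by
    rw [Subalgebra.mem_centralizer_iff]
    rintro g (rfl | rfl | rfl)
    · exact haa
    · exact h2
    · exact hda
  have hb : b ∈ S := by
    rw [Subalgebra.mem_centralizer_iff]
    rintro g (rfl | rfl | rfl)
    · exact h1
    · exact hbb
    · exact hdb
  let a' : S := ⟨a, ha⟩
  let b' : S := ⟨b, hb⟩
  let K := Subalgebra.center k S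
  have cen : ∀ z : S, (z : R) ∈ ({a * a, b * b, (a + b) * (a + b)} : Set R) → z ∈ K := by
    intro z hz
    rw [Subalgebra.mem_center_iff]
    intro x
    apply Subtype.ext
    exact (Subalgebra.mem_centralizer_iff k |>.mp x.2 z hz).symm
  have := quat_zero' hp hψ K S (Subalgebra.val K)
    (fun c x => (Subalgebra.mem_center_iff.mp c.2 x).symm) a' b'
    ⟨a' * a', cen _ (by simp [a'])⟩ ⟨b' * b', cen _ (by simp [b'])⟩
    ⟨(a' + b') * (a' + b'), cen _ (by simp [a', b'])⟩ rfl rfl rfl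
  have h := map_subst (k := k) (S.val : S →ₗ⁅k⁆ R) a' b' ψ
  rw [this] at h
  exact h.symm

end coef

end Pool.Agent.J4H43.SL
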