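import Pool.Agent.J4H43.SL.Perm
import Pool.Agent.J4H43.SL.Defs

/-!
# The action on the tensor powers of the plane
-/

namespace Pool.Agent.J4H43.SL

open Pool.Agent.Helper392_GT

universe u v

attribute [local instance 100] LieRing.ofAssociativeRing

section rep

variable (k : Type u) [CommRing k] (N : ℕ)

/-- the permutation action -/
noncomputable def pr : Equiv.Perm (Fin N) →* Module.End k ((Fin N → Fin 2) → k) where
  toFun σ := LinearMap.funLeft k k (fun w => w ∘ σ)
  map_one' := by
    ext f w
    rfl
  map_mul' σ τ := by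
    ext f w
    rfl

theorem tr_pr (i j : Fin N) : tr (pr k N) i j = flip k i j := rfl

variable {N}

theorem cas_eq (c : Fin N → Fin 3) (p q : Fin 3) :
    cas k c p q = T (pr k N) (Finset.univ.filter (fun i => c i = p))
      (Finset.univ.filter (fun i => c i = q)) := by
  rw [T, cas, Finset.sum_filter]
  refine Finset.sum_congr rfl fun i _ => ?_
  split_ifs with h
  · rw [Finset.sum_filter]
    refine Finset.sum_congr rfl fun j _ => ?_
    simp [h, tr_pr]
  · simp [h]

theorem anti3_pr : Anti3 (pr k N) := by
  intro i j l hij hil hjl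
  have e1 : tr (pr k N) i j * tr (pr k N) j l = tr (pr k N) i l * tr (pr k N) i j := by
    have := tr_conj (pr k N) (Equiv.swap i j) j l
    rw [Equiv.swap_apply_right, Equiv.swap_apply_of_ne_of_ne hil.symm hjl.symm] at this
    exact this
  have e2 : tr (pr k N) j l * tr (pr k N) i j = tr (pr k N) i l * tr (pr k N) j l := by
    have := tr_conj (pr k N) (Equiv.swap j l) i j
    rw [Equiv.swap_apply_left, Equiv.swap_apply_of_ne_of_ne hij hil] at this
    exact this
  have e3 : tr (pr k N) i j * tr (pr k N) j l = tr (pr k N) j l * tr (pr k N) i l := by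
    have := tr_conj (pr k N) (Equiv.swap j l) i l
    rw [Equiv.swap_apply_right, Equiv.swap_apply_of_ne_of_ne hij hil] at this
    exact this.symm
  have e4 : tr (pr k N) j l * tr (pr k N) i j = tr (pr k N) i j * tr (pr k N) i l := by
    have := tr_conj (pr k N) (Equiv.swap i j) i l
    rw [Equiv.swap_apply_left, Equiv.swap_apply_of_ne_of_ne hil.symm hjl.symm] at this
    exact this.symm
  have fix : ∀ {a b : Fin N} (f : (Fin N → Fin 2) → k) (w : Fin N → Fin 2), w a = w b →
      w ∘ Equiv.swap a b = w := by
    intro a b f w h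
    funext x
    rw [Function.comp_apply, Equiv.swap_apply_def]
    split_ifs with h1 h2
    · rw [h1, h]
    · rw [h2, h]
    · rfl
  have ap : ∀ (a b : Fin N) (f : (Fin N → Fin 2) → k) (w : Fin N → Fin 2),
      tr (pr k N) a b f w = f (w ∘ Equiv.swap a b) := fun _ _ _ _ => rfl
  refine LinearMap.ext fun f => funext fun w => ?_
  have hcase : w i = w j ∨ w j = w l ∨ w i = w l := by
    generalize w i = a
    generalize w j = b
    generalize w l = c
    revert a b c
    decide
  simp only [LinearMap.add_apply, LinearMap.sub_apply, Pi.add_apply, Pi.sub_apply,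
    Module.End.one_apply]
  rcases hcase with h | h | h
  · -- `w i = w j`
    rw [e4, show tr (pr k N) i j * tr (pr k N) j l = tr (pr k N) i j * tr (pr k N) j l from rfl]
    rw [Module.End.mul_apply, Module.End.mul_apply, ap i j, ap i j, ap i j, fix f w h]
    ring
  · rw [e3]
    rw [Module.End.mul_apply, Module.End.mul_apply, ap j l, ap j l, ap j l, fix f w h]
    ring
  · rw [e1, e2]
    rw [Module.End.mul_apply, Module.End.mul_apply, ap i l, ap i l, ap i l, fix f w h]
    ring

end rep

section vanish

variable {k : Type u} [Field k] [CharZero k]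

theorem slMap_zero {ψ : F2 k} (hp : Pentagon k ψ) (hψ : ψ ∈ D2 k) : slMap k ψ = 0 := by
  funext N c
  change subst k (cas k c 0 1) (cas k c 1 2) ψ = 0
  rw [cas_eq, cas_eq]
  have hd : ∀ p q : Fin 3, p ≠ q → Disjoint (Finset.univ.filter (fun i : Fin N => c i = p))
      (Finset.univ.filter (fun i => c i = q)) := by
    intro p q hpq
    rw [Finset.disjoint_left]
    intro i hi hi'
    simp only [Finset.mem_filter, Finset.mem_univ, true_and] at hi hi'
    exact hpq (hi ▸ hi')
  exact block_zero (pr k N) (anti3_pr k) hp hψ _ (hd 0 1 (by decide)) (hd 0 2 (by decide))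
    (hd 1 2 (by decide))

end vanish

end Pool.Agent.J4H43.SL
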