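import Pool.Agent.Helper392_GT.Main2

/-!
# Solutions of the pentagon equation of depth at least two vanish on `2 × 2` matrices

The proof evaluates the pentagon equation on a three-dimensional representation of `𝔱₄`.
-/

namespace Pool.Agent.J4H43.SL

open Pool.Agent.Helper392_GT

universe u v

attribute [local instance 100] LieRing.ofAssociativeRing

set_option linter.unusedSimpArgs false
set_option linter.unnecessarySeqFocus false

section general

variable {k : Type u} [CommRing k] {g : Type*} [LieRing g] [LieAlgebra k g]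

/-- commuting arguments -/
theorem subst_comm {ψ : F2 k} (hψ : ψ ∈ D1 k) {c d : g} (hcd : ⁅c, d⁆ = 0) :
    subst k c d ψ = 0 := by
  have hdc : ⁅d, c⁆ = 0 := by rw [← lie_skew, hcd, neg_zero]
  have := subst_shift (k := k) (A := 0) (B := 0) (Z := c) (W := d) (by simp) (by simp) (by simp)
    (by simp) hcd hψ
  rw [zero_add, zero_add] at this
  rw [this]
  have : subst k (0 : g) 0 = 0 := by
    ext i; fin_cases i <;> simp [subst]
  rw [this]; rfl

end general

section three

variable {k : Type u} [CommRing k] {K : Type v} [CommRing K] [Algebra k K]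

/-- the rows `1`, `2` are a multiple of those of `B` -/
theorem low_L {A B : Matrix (Fin 3) (Fin 3) K} (hA1 : ∀ j, A 1 j = 0) (hA2 : ∀ j, A 2 j = 0)
    (hB1 : B 1 0 = 0) (hB2 : B 2 0 = 0) (u : F2 k) :
    ∃ d : K, (∀ j, subst k A B u 1 j = d * B 1 j) ∧ (∀ j, subst k A B u 2 j = d * B 2 j) := by
  refine free_ind (fun u => ∃ d : K, (∀ j, subst k A B u 1 j = d * B 1 j) ∧
    (∀ j, subst k A B u 2 j = d * B 2 j)) ?_ ?_ ?_ ?_ ?_ ?_ u
  · exact ⟨0, by simp, by simp⟩
  · rintro a b ⟨d, h1, h2⟩ ⟨d', h1', h2'⟩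
    exact ⟨d + d', by intro j; rw [map_add, Matrix.add_apply, h1, h1']; ring,
      by intro j; rw [map_add, Matrix.add_apply, h2, h2']; ring⟩
  · rintro c a ⟨d, h1, h2⟩
    exact ⟨c • d, by intro j; rw [map_smul, Matrix.smul_apply, h1, smul_mul_assoc],
      by intro j; rw [map_smul, Matrix.smul_apply, h2, smul_mul_assoc]⟩
  · rintro a b ⟨d, h1, h2⟩ ⟨d', h1', h2'⟩
    refine ⟨0, ?_, ?_⟩
    · intro j
      rw [LieHom.map_lie, Ring.lie_def, Matrix.sub_apply, Matrix.mul_apply, Matrix.mul_apply,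
        Fin.sum_univ_three, Fin.sum_univ_three]
      simp only [h1, h2, h1', h2', hB1]
      ring
    · intro j
      rw [LieHom.map_lie, Ring.lie_def, Matrix.sub_apply, Matrix.mul_apply, Matrix.mul_apply,
        Fin.sum_univ_three, Fin.sum_univ_three]
      simp only [h1, h2, h1', h2', hB2]
      ring
  · exact ⟨0, by intro j; rw [subst_x, hA1]; ring, by intro j; rw [subst_x, hA2]; ring⟩
  · exact ⟨1, by intro j; rw [subst_y]; ring, by intro j; rw [subst_y]; ring⟩

theorem low_D1 {A B : Matrix (Fin 3) (Fin 3) K} (hA1 : ∀ j, A 1 j = 0) (hA2 : ∀ j, A 2 j = 0)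
    (hB1 : B 1 0 = 0) (hB2 : B 2 0 = 0) {u : F2 k} (hu : u ∈ D1 k) :
    (∀ j, subst k A B u 1 j = 0) ∧ (∀ j, subst k A B u 2 j = 0) ∧ subst k A B u 0 0 = 0 := by
  refine lie_ind ⊤ ⊤ (fun u => (∀ j, subst k A B u 1 j = 0) ∧ (∀ j, subst k A B u 2 j = 0) ∧
    subst k A B u 0 0 = 0) ?_ ?_ ?_ ?_ hu
  · simp
  · rintro a b ⟨h1, h2, h3⟩ ⟨g1, g2, g3⟩
    simp [h1, h2, h3, g1, g2, g3]
  · rintro c a ⟨h1, h2, h3⟩
    simp [h1, h2, h3]
  · intro a _ b _
    obtain ⟨d, h1, h2⟩ := low_L (k := k) hA1 hA2 hB1 hB2 a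
    obtain ⟨d', g1, g2⟩ := low_L (k := k) hA1 hA2 hB1 hB2 b
    refine ⟨?_, ?_, ?_⟩
    · intro j
      rw [LieHom.map_lie, Ring.lie_def, Matrix.sub_apply, Matrix.mul_apply, Matrix.mul_apply,
        Fin.sum_univ_three, Fin.sum_univ_three]
      simp only [h1, h2, g1, g2, hB1]
      ring
    · intro j
      rw [LieHom.map_lie, Ring.lie_def, Matrix.sub_apply, Matrix.mul_apply, Matrix.mul_apply,
        Fin.sum_univ_three, Fin.sum_univ_three]
      simp only [h1, h2, g1, g2, hB2]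
      ring
    · rw [LieHom.map_lie, Ring.lie_def, Matrix.sub_apply, Matrix.mul_apply, Matrix.mul_apply,
        Fin.sum_univ_three, Fin.sum_univ_three]
      simp only [h1, h2, g1, g2, hB1, hB2]
      ring

theorem low_D2 {A B : Matrix (Fin 3) (Fin 3) K} (hA1 : ∀ j, A 1 j = 0) (hA2 : ∀ j, A 2 j = 0)
    (hB1 : B 1 0 = 0) (hB2 : B 2 0 = 0) {u : F2 k} (hu : u ∈ D2 k) : subst k A B u = 0 := by
  refine lie_ind (D1 k) (D1 k) (fun u => subst k A B u = 0) ?_ ?_ ?_ ?_ hu
  · simp
  · intro a b ha hb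
    rw [map_add, ha, hb, add_zero]
  · intro c a ha
    rw [map_smul, ha, smul_zero]
  · intro a ha b hb
    obtain ⟨h1, h2, h3⟩ := low_D1 (k := k) hA1 hA2 hB1 hB2 ha
    obtain ⟨g1, g2, g3⟩ := low_D1 (k := k) hA1 hA2 hB1 hB2 hb
    rw [LieHom.map_lie, Ring.lie_def]
    ext i j
    rw [Matrix.sub_apply, Matrix.mul_apply, Matrix.mul_apply,
        Fin.sum_univ_three, Fin.sum_univ_three, Matrix.zero_apply]
    fin_cases i
    · simp [h1, h2, h3, g1, g2, g3]
    · simp [h1, h2, h3, g1, g2, g3]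
    · simp [h1, h2, h3, g1, g2, g3]

end three

section inter

variable {k : Type u} [CommRing k] {K : Type v} [CommRing K] [Algebra k K] {m n : Type*}
  [Fintype m] [Fintype n] [DecidableEq m] [DecidableEq n]

theorem int_left {A B : Matrix n n K} {A' B' : Matrix m m K}
    (R : Matrix m n K) (hA : R * A = A' * R) (hB : R * B = B' * R) (u : F2 k) :
    R * subst k A B u = subst k A' B' u * R := by
  refine free_ind (fun u => R * subst k A B u = subst k A' B' u * R) ?_ ?_ ?_ ?_ ?_ ?_ u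
  · rw [map_zero, map_zero, Matrix.mul_zero, Matrix.zero_mul]
  · intro a b ha hb
    rw [map_add, map_add, Matrix.mul_add, Matrix.add_mul, ha, hb]
  · intro c a ha
    rw [map_smul, map_smul, Matrix.mul_smul, Matrix.smul_mul, ha]
  · intro a b ha hb
    rw [LieHom.map_lie, LieHom.map_lie, Ring.lie_def, Ring.lie_def, Matrix.mul_sub,
      Matrix.sub_mul, ← Matrix.mul_assoc, ← Matrix.mul_assoc, ha, hb, Matrix.mul_assoc,
      Matrix.mul_assoc, ha, hb, Matrix.mul_assoc, Matrix.mul_assoc]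
  · rw [subst_x, subst_x]; exact hA
  · rw [subst_y, subst_y]; exact hB

theorem int_right {A B : Matrix n n K} {A' B' : Matrix m m K}
    (S : Matrix n m K) (hA : A * S = S * A') (hB : B * S = S * B') (u : F2 k) :
    subst k A B u * S = S * subst k A' B' u := by
  refine free_ind (fun u => subst k A B u * S = S * subst k A' B' u) ?_ ?_ ?_ ?_ ?_ ?_ u
  · rw [map_zero, map_zero, Matrix.mul_zero, Matrix.zero_mul]
  · intro a b ha hb
    rw [map_add, map_add, Matrix.mul_add, Matrix.add_mul, ha, hb]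
  · intro c a ha
    rw [map_smul, map_smul, Matrix.mul_smul, Matrix.smul_mul, ha]
  · intro a b ha hb
    rw [LieHom.map_lie, LieHom.map_lie, Ring.lie_def, Ring.lie_def, Matrix.mul_sub,
      Matrix.sub_mul, Matrix.mul_assoc, Matrix.mul_assoc, ha, hb, ← Matrix.mul_assoc,
      ← Matrix.mul_assoc, ha, hb, Matrix.mul_assoc, Matrix.mul_assoc]
  · rw [subst_x, subst_x]; exact hA
  · rw [subst_y, subst_y]; exact hB

end inter

section mats

variable {K : Type v} [CommRing K] (a b c : K)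

/-- the two-dimensional representation -/
def mX (a b : K) : Matrix (Fin 2) (Fin 2) K := !![-(a + b), 0; a, 0]
/-- the two-dimensional representation -/
def mY (b c : K) : Matrix (Fin 2) (Fin 2) K := !![0, c; 0, -(b + c)]

def f1 : Matrix (Fin 3) (Fin 3) K := !![-a, 0, 0; 0, 0, 0; 0, 0, 0]
def f2 : Matrix (Fin 3) (Fin 3) K := !![0, b, 0; 0, -(a + b), 0; 0, a, 0]
def f3 : Matrix (Fin 3) (Fin 3) K := !![0, 0, 0; 0, 0, c; 0, 0, -(b + c)]
def f4 : Matrix (Fin 3) (Fin 3) K := !![-(a + b), 0, 0; 0, -(a + b), 0; 0, a, 0]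
def f5 : Matrix (Fin 3) (Fin 3) K :=
  !![0, b + c, c; 0, -(a + b + c), 0; 0, 0, -(a + b + c)]

theorem lie3 (A B : Matrix (Fin 3) (Fin 3) K) (i j : Fin 3) :
    ⁅A, B⁆ i j = (A i 0 * B 0 j + A i 1 * B 1 j + A i 2 * B 2 j)
      - (B i 0 * A 0 j + B i 1 * A 1 j + B i 2 * A 2 j) := by
  rw [Ring.lie_def, Matrix.sub_apply, Matrix.mul_apply, Matrix.mul_apply, Fin.sum_univ_three,
    Fin.sum_univ_three]

theorem g13 : ⁅f1 a, f3 b c⁆ = 0 := by
  ext i j; rw [lie3]; fin_cases i <;> fin_cases j <;> simp [f1, f3]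
theorem g24 : ⁅f2 a b, f4 a b⁆ = 0 := by
  ext i j; rw [lie3]; fin_cases i <;> fin_cases j <;> simp [f2, f4] <;> ring
theorem g35 : ⁅f3 b c, f5 a b c⁆ = 0 := by
  ext i j; rw [lie3]; fin_cases i <;> fin_cases j <;> simp [f3, f5] <;> ring
theorem g41 : ⁅f4 a b, f1 a⁆ = 0 := by
  ext i j; rw [lie3]; fin_cases i <;> fin_cases j <;> simp [f4, f1] <;> ring
theorem g52 : ⁅f5 a b c, f2 a b⁆ = 0 := by
  ext i j; rw [lie3]; fin_cases i <;> fin_cases j <;> simp [f5, f2] <;> ring
theorem gsum : ⁅f1 a, f2 a b⁆ + ⁅f2 a b, f3 b c⁆ + ⁅f3 b c, f4 a b⁆ + ⁅f4 a b, f5 a b c⁆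
    + ⁅f5 a b c, f1 a⁆ = 0 := by
  ext i j; simp only [Matrix.add_apply, lie3]
  fin_cases i <;> fin_cases j <;> simp [f1, f2, f3, f4, f5] <;> ring

end mats

section two

variable {k : Type u} [CommRing k] {K : Type v} [CommRing K] [Algebra k K]

theorem row1 {ψ : F2 k} (hp : Pentagon k ψ) (hψ : ψ ∈ D2 k) (a b c : K) :
    (!![b + c, c] : Matrix (Fin 1) (Fin 2) K) * subst k (mX a b) (mY b c) ψ = 0 := by
  have hψ1 : ψ ∈ D1 k := D2_le_D1 hψ
  have h := five hp hψ1 (f1 a) (f2 a b) (f3 b c) (f4 a b) (f5 a b c) (g13 a b c) (g24 a b)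
    (g35 a b c) (g41 a b) (g52 a b c) (gsum a b c)
  have z1 : subst k (f1 a) (f5 a b c) ψ = 0 := by
    apply low_D2 _ _ _ _ hψ
    · intro j; fin_cases j <;> simp [f1]
    · intro j; fin_cases j <;> simp [f1]
    · simp [f5]
    · simp [f5]
  have z2 : subst k (f1 a) (f2 a b) ψ = 0 := by
    apply low_D2 _ _ _ _ hψ
    · intro j; fin_cases j <;> simp [f1]
    · intro j; fin_cases j <;> simp [f1]
    · simp [f2]
    · simp [f2]
  have z3 : subst k (f4 a b) (f5 a b c) ψ = 0 := by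
    have e4 : f4 a b = (f4 a b - f2 a b) + f2 a b := by abel
    have e5 : f5 a b c = (f5 a b c - f2 a b) + f2 a b := by abel
    have h24 : ⁅f4 a b, f2 a b⁆ = 0 := by rw [← lie_skew, g24, neg_zero]
    rw [e4, e5, subst_shift (k := k) _ _ _ _ _ hψ1]
    · apply low_D2 _ _ _ _ hψ
      · intro j; fin_cases j <;> simp [f4, f2]
      · intro j; fin_cases j <;> simp [f4, f2]
      · simp [f5, f2]
      · simp [f5, f2]
    · rw [sub_lie, h24, lie_self, sub_zero]
    · rw [sub_lie, g52, lie_self, sub_zero]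
    · rw [sub_lie, h24, lie_self, sub_zero]
    · rw [sub_lie, g52, lie_self, sub_zero]
    · rw [lie_self]
  rw [z1, z2, z3, zero_add, add_zero, add_zero] at h
  -- `h : subst (f4) (f3) ψ = subst (f2) (f3) ψ`
  have i1 := int_right (k := k) (A := f4 a b) (B := f3 b c) (A' := mX a b) (B' := mY b c)
    !![0, 0; 1, 0; 0, 1]
    (by ext i j; fin_cases i <;> fin_cases j <;>
          simp [Matrix.mul_apply, Fin.sum_univ_three, f4, mX])
    (by ext i j; fin_cases i <;> fin_cases j <;>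
          simp [Matrix.mul_apply, Fin.sum_univ_three, f3, mY]) ψ
  have i2 := int_left (k := k) (A := f2 a b) (B := f3 b c) (A' := (0 : Matrix (Fin 1) (Fin 1) K))
    (B' := 0) !![a + b + c, b + c, c]
    (by ext i j; fin_cases i; fin_cases j <;>
          simp [Matrix.mul_apply, Fin.sum_univ_three, f2] <;> ring)
    (by ext i j; fin_cases i; fin_cases j <;>
          simp [Matrix.mul_apply, Fin.sum_univ_three, f3] <;> ring) ψ
  rw [subst_comm hψ1 (lie_zero _), Matrix.zero_mul] at i2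
  rw [h] at i1
  have i3 := congrArg (fun M => (!![a + b + c, b + c, c] : Matrix (Fin 1) (Fin 3) K) * M) i1
  rw [← Matrix.mul_assoc, i2, Matrix.zero_mul, ← Matrix.mul_assoc] at i3
  have e : (!![a + b + c, b + c, c] : Matrix (Fin 1) (Fin 3) K) *
      (!![0, 0; 1, 0; 0, 1] : Matrix (Fin 3) (Fin 2) K) = !![b + c, c] := by
    ext i j; fin_cases i; fin_cases j <;> simp [Matrix.mul_apply, Fin.sum_univ_three]
  rw [e] at i3
  exact i3.symm

theorem row2 {ψ : F2 k} (hp : Pentagon k ψ) (hψ : ψ ∈ D2 k) (a b c : K) :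
    (!![a, a + b] : Matrix (Fin 1) (Fin 2) K) * subst k (mX a b) (mY b c) ψ = 0 := by
  have hψ1 : ψ ∈ D1 k := D2_le_D1 hψ
  have h := row1 hp hψ c b a
  have i1 := int_left (k := k) (A := mX a b) (B := mY b c) (A' := mY b a) (B' := mX c b)
    !![0, 1; 1, 0]
    (by ext i j; fin_cases i <;> fin_cases j <;>
          simp [mX, mY] <;> ring)
    (by ext i j; fin_cases i <;> fin_cases j <;>
          simp [mX, mY] <;> ring) ψ
  have i2 := antisymm hp hψ1 (mX c b) (mY b a)
  rw [i2] at i1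
  have i3 := congrArg (fun M => (!![b + a, a] : Matrix (Fin 1) (Fin 2) K) * M) i1
  rw [Matrix.neg_mul, Matrix.mul_neg, ← Matrix.mul_assoc _ (subst k (mX c b) (mY b a) ψ), h,
    Matrix.zero_mul, neg_zero, ← Matrix.mul_assoc] at i3
  have e : (!![b + a, a] : Matrix (Fin 1) (Fin 2) K) *
      (!![0, 1; 1, 0] : Matrix (Fin 2) (Fin 2) K) = !![a, a + b] := by
    ext i j; fin_cases i; fin_cases j <;> simp [Matrix.mul_apply, Fin.sum_univ_two, add_comm]
  rwa [e] at i3

/-- a solution of the pentagon equation in the second derived ideal vanishes on the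
two-dimensional representations `mX`, `mY` -/
theorem two_zero [IsDomain K] {ψ : F2 k} (hp : Pentagon k ψ) (hψ : ψ ∈ D2 k) (a b c : K)
    (hb : b ≠ 0) (hs : a + b + c ≠ 0) : subst k (mX a b) (mY b c) ψ = 0 := by
  have h1 := row1 hp hψ a b c
  have h2 := row2 hp hψ a b c
  set M := subst k (mX a b) (mY b c) ψ with hM
  have key : ∀ j, M 0 j = 0 ∧ M 1 j = 0 := by
    intro j
    have e1 := congrFun (congrFun h1 0) j
    have e2 := congrFun (congrFun h2 0) j
    simp only [Matrix.mul_apply, Fin.sum_univ_two, Matrix.of_apply, Matrix.cons_val', 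
      Matrix.cons_val_zero, Matrix.cons_val_one, Matrix.zero_apply, Matrix.cons_val_fin_one] at e1 e2
    have hd : b * (a + b + c) ≠ 0 := mul_ne_zero hb hs
    constructor
    · apply (mul_eq_zero.mp (?_ : (b * (a + b + c)) * M 0 j = 0)).resolve_left hd
      linear_combination (a + b) * e1 - c * e2
    · apply (mul_eq_zero.mp (?_ : (b * (a + b + c)) * M 1 j = 0)).resolve_left hd
      linear_combination (b + c) * e2 - a * e1
  ext i j
  fin_cases i
  · exact (key j).1
  · exact (key j).2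

end two

end Pool.Agent.J4H43.SL
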